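import Pool.Agent.H631.TH.FStm
import Pool.Graph.R_seed8.Helper126.Fact

/-!
# The countable chain condition
-/

set_option autoImplicit false
set_option linter.unusedSectionVars false

namespace Pool.Agent.H631.TH

open Classical

variable {M T : Type} [LinearOrder T] [WellFoundedLT T] {Γ : Par M T}

theorem uncountable_fiber {α β : Type} [Countable β] {A : Set α} (hA : ¬ A.Countable)
    (g : α → β) : ∃ b, ¬ {a ∈ A | g a = b}.Countable := by
  by_contra hcon
  push Not at hcon
  apply hA
  refine (Set.countable_iUnion hcon).mono fun a ha => ?_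
  exact Set.mem_iUnion.2 ⟨g a, ha, rfl⟩

theorem ccc : CCC Γ := by
  intro A hA
  obtain ⟨A1, R, hA1A, hA1, -, hd1⟩ := Helper126.delta_system
    (fun a : Cond M T => (a.supp : Finset T)) A hA
  obtain ⟨st, hA2⟩ := uncountable_fiber hA1 (fun a : Cond M T => fun j : R => (a j.1).stem)
  have hnt : {a ∈ A1 | (fun j : R => (a j.1).stem) = st}.Nontrivial := by
    by_contra hcon
    exact hA2 (Set.not_nontrivial_iff.1 hcon).countable
  obtain ⟨a, ha, b, hb, hab⟩ := hnt
  have h1 : ∀ i ∉ R, a i = CV.top ∨ b i = CV.top := by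
    intro i hi
    by_contra hcon
    push Not at hcon
    exact hi (hd1 a ha.1 b hb.1 hab i (Cond.mem_supp.2 hcon.1) (Cond.mem_supp.2 hcon.2))
  have h2 : ∀ i ∈ R, (a i).stem = (b i).stem := fun i hi =>
    (congrFun ha.2 ⟨i, hi⟩).trans (congrFun hb.2 ⟨i, hi⟩).symm
  refine ⟨a, hA1A ha.1, b, hA1A hb.1, hab, ?_⟩
  let f : T → CV M := fun i => if i ∈ R then ⟨(a i).stem, (a i).pr ∪ (b i).pr⟩ else
    if a i = CV.top then b i else a i
  have hf1 : ∀ i ∈ R, f i = ⟨(a i).stem, (a i).pr ∪ (b i).pr⟩ := fun i hi => if_pos hi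
  have hf2 : ∀ i ∉ R, f i = if a i = CV.top then b i else a i := fun i hi => if_neg hi
  have hfin : {i | f i ≠ CV.top}.Finite := by
    refine ((Finset.finite_toSet R).union (a.2.union b.2)).subset ?_
    intro i hi
    by_cases hR : i ∈ R
    · exact Or.inl hR
    · refine Or.inr ?_
      by_cases h : a i = CV.top
      · refine Or.inr ?_
        rw [Set.mem_ofPred_eq, hf2 i hR, if_pos h] at hi
        exact hi
      · exact Or.inl h
  refine ⟨⟨f, hfin⟩, fun i _ => ?_, fun i _ => ?_⟩
  · by_cases hR : i ∈ R
    · refine ext_same_stem ?_ ?_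
      · show (a i).stem = (f i).stem
        rw [hf1 i hR]
      · show (a i).pr ⊆ (f i).pr
        rw [hf1 i hR]
        exact Finset.subset_union_left
    · by_cases h : a i = CV.top
      · exact ext_top h
      · refine ext_of_eq ?_
        show f i = a i
        rw [hf2 i hR, if_neg h]
  · by_cases hR : i ∈ R
    · refine ext_same_stem ?_ ?_
      · show (b i).stem = (f i).stem
        rw [hf1 i hR]
        exact (h2 i hR).symm
      · show (b i).pr ⊆ (f i).pr
        rw [hf1 i hR]
        exact Finset.subset_union_right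
    · by_cases h : a i = CV.top
      · refine ext_of_eq ?_
        show f i = b i
        rw [hf2 i hR, if_pos h]
      · exact ext_top ((h1 i hR).resolve_left h)

end Pool.Agent.H631.TH
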