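import Pool.Agent.H631.TH.GStm
import Pool.Agent.H631.TH.Ccc
import Pool.Agent.H631.THD.BASE
import Pool.Agent.H631.THD.REAL
import Pool.Agent.H631.THD.CDF
import Pool.Agent.H631.THD.BIN
import Pool.Agent.H631.THD.EMB
import Pool.Agent.H631.THD.SUPP
import Pool.Agent.H631.THD.TRANS
import Pool.Agent.H631.THD.PNPM
import Pool.Agent.H631.THD.PRED
import Pool.Agent.H631.THD.CNT
import Pool.Agent.H631.THD.DB
import Pool.Agent.H631.THD.DL
import Pool.Agent.H631.THD.GLUE
import Pool.Agent.H631.THD.XT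
import Pool.Agent.H631.THD.DEM
import Pool.Agent.H631.THD.MD
import Pool.Agent.H631.THD.TREE
import Pool.Agent.H631.THD.FN
import Pool.Agent.H631.THD.FOL
import Pool.Agent.H631.THD.NT
import Pool.Agent.H631.THD.ND
import Pool.Agent.H631.THD.N1
import Pool.Agent.H631.THD.N2
import Pool.Agent.H631.THD.SUCC
import Pool.Agent.H631.THD.DICH
import Pool.Agent.H631.THD.UNIT
import Pool.Agent.H631.THD.EX
import Pool.Agent.H631.THD.FB
import Pool.Agent.H631.THD.DN
import Pool.Agent.H631.THD.RAW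
import Pool.Agent.H631.THD.K1
import Pool.Agent.H631.THD.K2
import Pool.Agent.H631.THD.K3
import Pool.Agent.H631.THD.KP
import Pool.Agent.H631.THD.KM
import Pool.Agent.H631.THD.TF
import Pool.Agent.H631.THD.COV
import Pool.Agent.H631.THD.RN
import Pool.Agent.H631.THD.FIN

/-!
# Assembly
-/

set_option autoImplicit false

namespace Pool.Agent.H631.TH

open Pool.Agent.H631.THD

theorem embThm : S_EMB := EMB.th_EMB BASE.th_BASE REAL.th_REAL CDF.th_CDF BIN.th_BIN

theorem transThm : S_TRANS := TRANS.th_TRANS embThm SUPP.th_SUPP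

theorem glueThm : S_GLUE := GLUE.th_GLUE PRED.th_PRED

theorem demThm : S_DEM := DEM.th_DEM PRED.th_PRED glueThm XT.th_XT

theorem mdThm : S_MD := MD.th_MD PRED.th_PRED glueThm demThm XT.th_XT

theorem treeThm : S_TREE := TREE.th_TREE PRED.th_PRED

theorem n1Thm : S_N1 := N1.th_N1 FOL.th_FOL

theorem n2Thm : S_N2 := N2.th_N2 FOL.th_FOL

theorem succThm : S_SUCC :=
  SUCC.th_SUCC XT.th_XT demThm mdThm treeThm FN.th_FN ND.th_ND n1Thm n2Thm NT.th_NT

theorem cntThm : S_CNT := CNT.th_CNT PRED.th_PRED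

theorem dichThm : S_DICH := DICH.th_DICH cntThm DB.th_DB DL.th_DL succThm

theorem tfThm : S_TF := TF.th_TF EX.th_EX FB.th_FB

theorem dnThm : S_DN := DN.th_DN EX.th_EX

theorem rawThm : S_RAW := RAW.th_RAW PRED.th_PRED

theorem covThm : S_COV := COV.th_COV rawThm dnThm FB.th_FB

theorem finThm : S_FIN := FIN.th_FIN cntThm dichThm tfThm covThm RN.th_RN

theorem k2Thm : S_K2 := K2.th_K2 K1.th_K1

theorem kpThm : S_KP := KP.th_KP k2Thm K3.th_K3

theorem kmThm : S_KM := KM.th_KM k2Thm kpThm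

end Pool.Agent.H631.TH
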