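import Pool.Agent.H631.TH.Basic

/-!
# Names of sets of sequences, the dichotomy
-/

set_option autoImplicit false
set_option linter.unusedSectionVars false

namespace Pool.Agent.H631.TH

open Classical Set

variable {M T : Type} [LinearOrder T] [WellFoundedLT T]

/-- the conditions in `N` are supported in `W` -/
def NSup (W : Set T) (N : Set (Cond M T)) : Prop := ∀ s ∈ N, ∀ i ∉ W, s i = CV.top

/-- `q` forces that the generic filter does not meet `N` -/
def Out (Γ : Par M T) (N : Set (Cond M T)) (q : Cond M T) : Prop :=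
  ∀ s ∈ N, ¬ Cmp (le Γ univ) q s

/-- `p` forces that the generic filter meets `N` -/
def Inn (Γ : Par M T) (N : Set (Cond M T)) (p : Cond M T) : Prop :=
  ∀ q, le Γ univ q p → ¬ Out Γ N q

/-- names of sets of finite sequences of bits -/
abbrev TN (M T : Type) : Type := List Bool → Set (Cond M T)

/-- the named set is closed under initial segments -/
def TreeN (Γ : Par M T) (X : TN M T) : Prop :=
  ∀ u v : List Bool, v <+: u → ∀ q, Out Γ (X v) q → Out Γ (X u) q

/-- the name is supported in `W` -/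
def SupT (W : Set T) (X : TN M T) : Prop := ∀ u, NSup W (X u)

/-- the named set is a tree of positive measure -/
def FatN (Γ : Par M T) (Y : TN M T) : Prop :=
  TreeN Γ Y ∧ ∃ c : ℕ, ∀ (k : ℕ) (p : Cond M T), ∃ q, le Γ univ q p ∧
    ∃ L : Finset (List Bool), 2 ^ k ≤ c * L.card ∧ ∀ u ∈ L, u.length = k ∧ Inn Γ (Y u) q

/-- `p` forces that every extension of the part of `p` below `γ` makes the measure small -/
def GNull (Γ : Par M T) (γ : T) (X : TN M T) (p : Cond M T) : Prop :=
  ∀ (N : ℕ) (r : Cond M T), le Γ (Iio γ) r p → ∃ r', le Γ (Iio γ) r' r ∧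
    ∃ (n : ℕ) (L : Finset (List Bool)), N * L.card ≤ 2 ^ n ∧
      ∀ u : List Bool, u.length = n → u ∉ L → Out Γ (X u) (mix (Iio γ) r' p)

/-- whatever can be excluded from `X` by strengthening `q` below `γ` is excluded from `Y` -/
def Capt (Γ : Par M T) (γ : T) (X Y : TN M T) (q : Cond M T) : Prop :=
  ∀ r, le Γ (Iio γ) r q → ∀ u, Out Γ (X u) (mix (Iio γ) r q) → Out Γ (Y u) r

/-- the dichotomy for `X` at `γ` -/
def Dich (Γ : Par M T) (γ : T) (X : TN M T) : Prop :=
  ∃ Y : ℕ → TN M T, (∀ n, SupT (Iio γ) (Y n)) ∧ (∀ n, FatN Γ (Y n)) ∧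
    ∀ p, (∃ q, le Γ univ q p ∧ GNull Γ γ X q) ∨ ∃ q, le Γ univ q p ∧ ∃ n, Capt Γ γ X (Y n) q

/-- all names with support below `j` occur as promises at `j` -/
def Full (Γ : Par M T) : Prop := ∀ (j : T) (x : Nm M T), Supp (Iio j) x → ∃ m, Γ j m = x

/-! ### Basic facts -/

theorem Out.mono {Γ : Par M T} {N : Set (Cond M T)} {q q' : Cond M T} (h : Out Γ N q)
    (hq : le Γ univ q' q) : Out Γ N q' := fun s hs hc => h s hs (hc.mono low_univ hq)

/-- only the part of the condition in `W` matters for a name supported in `W` -/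
theorem Out.mono' {Γ : Par M T} {W : Set T} (hW : Low W) {N : Set (Cond M T)} (hN : NSup W N)
    {q q' : Cond M T} (h : Out Γ N q) (hq : le Γ W q' q) : Out Γ N q' := by
  rintro s hs ⟨r, h1, h2⟩
  have h3 : le Γ W r q := le_trans' hW (le_mono (subset_univ W) h1) hq
  refine h s hs ⟨mix W r q, mix_le hW h3, fun i _ => ?_⟩
  by_cases hi : i ∈ W
  · exact ext_congr i (fun l hl => (mix_mem r q (hW i hi l hl)).symm) (mix_mem r q hi).symm rfl
      (h2 i (mem_univ i))
  · exact ext_top (hN s hs i hi)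

theorem Out.iff_of_eq {Γ : Par M T} {W : Set T} (hW : Low W) {N : Set (Cond M T)}
    (hN : NSup W N) {q q' : Cond M T} (h : ∀ i ∈ W, q i = q' i) : Out Γ N q ↔ Out Γ N q' :=
  ⟨fun h1 => h1.mono' hW hN (le_of_eq hW fun i hi => (h i hi).symm),
    fun h1 => h1.mono' hW hN (le_of_eq hW h)⟩

theorem Inn.mono {Γ : Par M T} {N : Set (Cond M T)} {q q' : Cond M T} (h : Inn Γ N q)
    (hq : le Γ univ q' q) : Inn Γ N q' := fun r hr => h r (le_trans' low_univ hr hq)

/-- the restriction of a condition -/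
noncomputable def rst (W : Set T) (q : Cond M T) : Cond M T := mix W q Cond.one

theorem rst_mem {W : Set T} (q : Cond M T) {i : T} (h : i ∈ W) : rst W q i = q i := mix_mem _ _ h

theorem rst_notMem {W : Set T} (q : Cond M T) {i : T} (h : i ∉ W) : rst W q i = CV.top :=
  mix_notMem _ _ h

theorem le_rst {Γ : Par M T} {W : Set T} (hW : Low W) (q : Cond M T) :
    le Γ univ q (rst W q) := fun i _ => by
  by_cases hi : i ∈ W
  · exact ext_of_eq (rst_mem q hi).symm
  · exact ext_top (rst_notMem q hi)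

theorem rst_le {Γ : Par M T} {W : Set T} (hW : Low W) {q p : Cond M T}
    (hp : ∀ i ∉ W, p i = CV.top) (h : le Γ W q p) : le Γ univ (rst W q) p := fun i _ => by
  by_cases hi : i ∈ W
  · exact ext_congr i (fun l hl => (rst_mem q (hW i hi l hl)).symm) (rst_mem q hi).symm rfl
      (h i hi)
  · exact ext_top (hp i hi)

theorem rst_eq {Γ : Par M T} {W : Set T} (hW : Low W) (q : Cond M T) : le Γ W (rst W q) q :=
  le_of_eq hW fun _ hi => rst_mem q hi

end Pool.Agent.H631.TH
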