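import Pool.Agent.H631.TH.Defs

/-!
# The statements of the forcing part (dichotomy)
-/

set_option autoImplicit false
set_option linter.unusedSectionVars false
set_option linter.unusedVariables false

namespace Pool.Agent.H631.TH

open Classical Set

/-- the countable chain condition -/
def CCC {M T : Type} [LinearOrder T] [WellFoundedLT T] (Γ : Par M T) : Prop :=
  ∀ A : Set (Cond M T), ¬ A.Countable → ∃ p ∈ A, ∃ q ∈ A, p ≠ q ∧
    ∃ r, le Γ Set.univ r p ∧ le Γ Set.univ r q

section Definitions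

variable {M T : Type} [LinearOrder T] [WellFoundedLT T]

/-- `w` forces that the value at (the code of) `t` of the function named by the promise `m` at `j` is at
most `f` -/
def Bd (Γ : Par M T) (j : T) (w : Cond M T) (m : M) (t : List ℕ) (f : ℕ) : Prop :=
  ∀ r, le Γ (Iio j) r w → ∀ n, Val (le Γ (Iio j)) r (Γ j m) (Encodable.encode t) n → n ≤ f

/-- `z` forces that the sequence `t3` follows the promise `m` at `j`, from the length of `t` on -/
def Fol (Γ : Par M T) (j : T) (z : Cond M T) (m : M) (t t3 : List ℕ) : Prop :=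
  ∀ i, t.length ≤ i → i < t3.length → ∀ r, le Γ (Iio j) r z → ∀ n,
    Val (le Γ (Iio j)) r (Γ j m) (Encodable.encode (t3.take i)) n → n ≤ t3.getD i 0

theorem ext_iff_fol {Γ : Par M T} {j : T} {q p : Cond M T} :
    ext Γ j q p ↔ (p j).stem <+: (q j).stem ∧ (p j).pr ⊆ (q j).pr ∧
      ∀ m ∈ (p j).pr, Fol Γ j q m (p j).stem (q j).stem := ext_iff

/-- `w`, together with the stem `t` and some promises with values at most `f` at `t`, excludes
`u` from `X` -/
def At (Γ : Par M T) (j : T) (X : TN M T) (t : List ℕ) (f : ℕ) (u : List Bool) (w : Cond M T) :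
    Prop :=
  ∃ pr : Finset M, (∀ m ∈ pr, Bd Γ j w m t f) ∧ Out Γ (X u) (upd w j ⟨t, pr⟩)

/-- the set of the `u` which cannot be excluded from `X` by conditions with stem `t` at `j`, and
promises with values at most `f` at `t` -/
def Xt (Γ : Par M T) (j : T) (X : TN M T) (t : List ℕ) (f : ℕ) : TN M T := fun u =>
  {r | (∀ i ∉ Iio j, r i = CV.top) ∧ ∀ r', le Γ (Iio j) r' r → ¬ At Γ j X t f u r'}

/-- nodes of the tree in the successor step -/
structure Node (M T : Type) : Type where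
  w : Cond M T
  t : List ℕ
  f : ℕ
  dem : Finset M
  wt : ℕ
  a : Bool

/-- the relation between a node and its child with the index `e` -/
def Child (Γ : Par M T) (D : List ℕ → ℕ → ℕ → Finset M) (R : Node M T → Finset M) (e : ℕ)
    (π π' : Node M T) : Prop :=
  le Γ univ π'.w π.w ∧ π.dem ⊆ π'.dem ∧ R π ⊆ π'.dem ∧ (∀ k ≤ e, D π.t π.f k ⊆ π'.dem) ∧
    π'.wt = π.wt + e + 2 ∧ π'.a = !π.a ∧ (π.a = true → ∃ a, π.f ≤ a ∧ π'.t = π.t ++ [a]) ∧
    (π.a = false → π'.t = π.t ∧ π.f ≤ π'.f)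

/-- the invariant of the nodes -/
def NodeInv (Γ : Par M T) (γ j : T) (X : TN M T) (p : Cond M T) (π : Node M T) : Prop :=
  (∀ i ∉ Iio j, π.w i = CV.top) ∧ le Γ (Iio j) π.w p ∧ (p j).stem <+: π.t ∧
    (∀ m ∈ (p j).pr, Fol Γ j π.w m (p j).stem π.t) ∧ (∀ m ∈ (p j).pr, Bd Γ j π.w m π.t π.f) ∧
    (π.a = true → ∀ m ∈ π.dem, Bd Γ j π.w m π.t π.f) ∧ GNull Γ γ (Xt Γ j X π.t π.f) π.w

/-- the tree of nodes; the addresses are finite sequences of numbers -/
structure IsTree (Γ : Par M T) (γ j : T) (X : TN M T) (p : Cond M T)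
    (D : List ℕ → ℕ → ℕ → Finset M) (R : Node M T → Finset M)
    (nd : List ℕ → Option (Node M T)) : Prop where
  root : ∃ π, nd [] = some π ∧ π.a = true ∧ π.t = (p j).stem ∧ π.wt = 0
  child : ∀ l e π', nd (l ++ [e]) = some π' → ∃ π, nd l = some π ∧ Child Γ D R e π π'
  inv : ∀ l π, nd l = some π → NodeInv Γ γ j X p π
  dense : ∀ l π, nd l = some π → ∀ a, (π.a = true → π.f ≤ a) → ∀ v, le Γ (Iio j) v π.w →
    ∃ e π', nd (l ++ [e]) = some π' ∧ (π.a = true → π'.t = π.t ++ [a]) ∧
      Cmp (le Γ (Iio j)) v π'.w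
  incomp : ∀ l e e' π' π'', e ≠ e' → nd (l ++ [e]) = some π' → nd (l ++ [e']) = some π'' →
    π'.t = π''.t → ¬ Cmp (le Γ (Iio j)) π'.w π''.w

/-- `mF` names a function whose value at the stem of an A-node in the generic filter is the bound
of the node -/
def NamesF (Γ : Par M T) (j : T) (nd : List ℕ → Option (Node M T)) (mF : M) : Prop :=
  ∀ l π, nd l = some π → π.a = true →
    Val (le Γ (Iio j)) π.w (Γ j mF) (Encodable.encode π.t) π.f

/-- the condition of a node -/
noncomputable def Qn (j : T) (p : Cond M T) (mF : M) (π : Node M T) : Cond M T :=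
  mix (Iio j) π.w (upd p j ⟨π.t, insert mF (p j).pr⟩)

end Definitions

/-- **PRED.** Countable predense sets.

PROOF. See `Pool/Agent/H631/ED/Reduce.lean`, `exists_predense` (the same proof): Zorn gives a maximal
subset of pairwise incompatible elements of `φ`, countable by `CCC`. Take an injection `c` of it into `ℕ` and let
`g m = some u` iff `c u = m`. -/
def S_PRED : Prop := ∀ (M T : Type) [LinearOrder T] [WellFoundedLT T] (Γ : Par M T), CCC Γ →
  ∀ φ : Set (Cond M T), ∃ g : ℕ → Option (Cond M T), (∀ m u, g m = some u → u ∈ φ) ∧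
    (∀ m m' u u', m ≠ m' → g m = some u → g m' = some u' → ¬ Cmp (le Γ univ) u u') ∧
    ∀ p ∈ φ, ∃ m a, g m = some a ∧ Cmp (le Γ univ) p a

/-- **CNT.** Names can be replaced by countable ones.

PROOF. Apply PRED to `φ = {q | (∀ i ∉ W, q i = CV.top) ∧ ∃ s ∈ N, le Γ univ q s}`. If `r ≤ q` and `r ≤ s ∈ N`,
then `rst W r ∈ φ` (`rst_le`), so it is compatible with some `a = g m`, `r4 ≤ rst W r`, `r4 ≤ a`. Then
`mix W r4 r ≤ r ≤ q` (`mix_le`, as `r4 ≤ rst W r` gives `le Γ W r4 r`) and `mix W r4 r ≤ a`: on `W` it is `r4`, and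
outside `a` is trivial (`ext_top`). Conversely `a ∈ φ` is below some `s ∈ N`. -/
def S_CNT : Prop := ∀ (M T : Type) [LinearOrder T] [WellFoundedLT T] (Γ : Par M T), CCC Γ →
  ∀ W : Set T, Low W → ∀ N : Set (Cond M T), NSup W N →
    ∃ g : ℕ → Option (Cond M T), NSup W {u | ∃ m, g m = some u} ∧
      ∀ q, Out Γ {u | ∃ m, g m = some u} q ↔ Out Γ N q

/-- **DB.** The dichotomy for names supported below `γ`.

PROOF. For `c : ℕ` say that `s` is a `c`-witness if `∃ n L, c * |L| < 2^n` and `Out Γ (X u) s` for all `u` of length `n`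
not in `L`. Let `Y c u = {s | (∀ i ∉ Iio γ, s i = CV.top) ∧ (Inn Γ (X u) s ∨ s is a c-witness)}`.
`TreeN`: `Y c u ⊆ Y c v` for `v <+: u` because `X` is `TreeN`.
`FatN` with the constant `c + 1`: let `k, p` be given. Case 1: some `q ≤ p` is a `c`-witness; then so is
`rst (Iio γ) q` (by `Out.iff_of_eq`, as `X` is supported in `Iio γ`), and `q ≤ rst (Iio γ) q`, so `Inn Γ (Y c u) q` for
all `u`: take for `L` all strings of length `k` (`2^k` many, e.g. the image of `List.ofFn` on `Fin k → Bool`). Case 2: no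
`q ≤ p` is a `c`-witness. Extend `p` to `q` such that for each `u` of length `k` either `Out Γ (X u) q` or `Inn Γ (X u) q`
(finitely many steps: if not `Inn`, some extension is in `Out`; both persist, `Out.mono`, `Inn.mono`). Let `L` be the set
of those `u` of length `k` with `Inn Γ (X u) q`; as `q` is no witness, `2^k ≤ c * |L|`. For `u ∈ L`,
`s = rst (Iio γ) q` satisfies `Inn Γ (X u) s` (if `r ≤ s` and `Out Γ (X u) r`, then `mix (Iio γ) r q ≤ q` is in `Out` too,
`Out.iff_of_eq`), so `s ∈ Y c u`, `q ≤ s`.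
Dichotomy for `p`: if `GNull Γ γ X p` take `q = p`. Otherwise there are `N` and `r` with `le Γ (Iio γ) r p`, such that no
`r'` with `le Γ (Iio γ) r' r` has `n, L` with `N * |L| ≤ 2^n` and `Out Γ (X u) (mix (Iio γ) r' p)` off `L`. Let `q = mix (Iio γ) r p`.
Then `Capt Γ γ X (Y N) q`: let `le Γ (Iio γ) r1 q`, `Out Γ (X u) (mix (Iio γ) r1 q)`, and suppose that `r1` is compatible
with `s ∈ Y N u`: `r3 ≤ r1, s`. If `Inn Γ (X u) s`: but `Out Γ (X u) r3` by `Out.mono'` (`r3` is below
`mix (Iio γ) r1 q` on `Iio γ`), contradiction. If `s` is an `N`-witness with `n, L`, then `Out Γ (X u') (mix (Iio γ) r3 p)` off `L`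
(`Out.mono'`), and `le Γ (Iio γ) r3 r`, contradiction to the choice of `r`. -/
def S_DB : Prop := ∀ (M T : Type) [LinearOrder T] [WellFoundedLT T] (Γ : Par M T) (γ : T)
    (X : TN M T), TreeN Γ X → SupT (Iio γ) X → Dich Γ γ X

/-- **DL.** The dichotomy at limits.

PROOF. Let `W n = Iio (i n)`, `W = ⋃ n, W n` (lower sets). Let
`X' n u = {r | (∀ t ∉ W n, r t = CV.top) ∧ ∀ r', le Γ (W n) r' r → ¬ Out Γ (X u) (rst (W n) r')}`.
(1) If `rst (W n) p` and `p` agree on `W`, then `Out Γ (X' n u) p ↔ Out Γ (X u) p`. (⇐) If `r3 ≤ p` and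
`r3 ≤ r ∈ X' n u`, then `Out Γ (X u) (rst (W n) r3)`, since `le Γ W (rst (W n) r3) (rst (W n) p)`, `Out.mono'` on `W`
(`X u` is supported in `W`); contradiction to `r ∈ X' n u`. (⇒) Suppose `r3 ≤ p`, `r3 ≤ s ∈ X u`. `rst (W n) r3` is not in
`X' n u` (as `Out Γ (X' n u) p` and `r3 ≤ rst (W n) r3`), so there is `r'` with `le Γ (W n) r' r3` and
`Out Γ (X u) (rst (W n) r')`; then `mix (W n) r' r3 ≤ r3 ≤ s` and `mix (W n) r' r3 ≤ rst (W n) r'`, contradiction.
(2) `X' n` is `TreeN`: `X' n u ⊆ X' n v` for `v <+: u`. It is supported in `W n`. So the hypothesis gives families `Y n m`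
for `X' n`. The family for `X` is `Y (unpair k).1 (unpair k).2`, `k : ℕ`.
(3) Let `p` be given. There is `n` such that `p t = CV.top` for all `t ∈ W \ W n` (finite support, `i` monotone). The dichotomy for
`X' n` gives `q ≤ p`, with `GNull` or `Capt` for `X' n`. Let `q' = mix (W n) q p ≤ p`. The properties only depend on the part of
the condition in `W n` (for `r` with `le Γ (Iio γ) r q'`, `mix (Iio γ) r q'` and `mix (Iio γ) r q` agree on `W n ⊇ Iio γ`; `X' n` is
supported in `W n`). And for `r` with `le Γ (Iio γ) r q'` the condition `z = mix (Iio γ) r q'` satisfies the hypothesis of (1)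
(`z t = p t = CV.top` for `t ∈ W \ W n`), so `Out Γ (X' n u) z ↔ Out Γ (X u) z`. So `GNull`, `Capt` hold for `X` and `q'`. -/
def S_DL : Prop := ∀ (M T : Type) [LinearOrder T] [WellFoundedLT T] (Γ : Par M T) (γ : T)
    (X : TN M T) (i : ℕ → T), TreeN Γ X → (∀ n, γ ≤ i n) → Monotone i →
  (∀ u, ∀ s ∈ X u, ∃ n, ∀ t ∉ Iio (i n), s t = CV.top) →
  (∀ n (X' : TN M T), TreeN Γ X' → SupT (Iio (i n)) X' → Dich Γ γ X') → Dich Γ γ X

/-- **GLUE.** Gluing of promises along a countable sequence of conditions.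

PROOF. Use names from dense sets (`raw_of` in `Pool/Agent/H631/ED/Reduce.lean`, adapt the proof; it needs only
`PRED`): for `V : ℕ → ℕ → Set (Cond M T)` with `V n z` closed under `le Γ (Iio j)`-extension and
`∀ n p, ∃ q, le Γ (Iio j) q p ∧ ∃ z, q ∈ V n z` there is a name `x`, `Supp (Iio j) x`, with
`Val (le Γ (Iio j)) t x n z → t ∈ V n z`. Take `V n z` = the set of the `q` such that either (a) there are `i, a, S` with
`g i = some (a, S)`, `le Γ (Iio j) q a`, `q` incompatible with all earlier `a'`, and values `v m`, `m ∈ S`, with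
`Val (le Γ (Iio j)) q (Γ j m) n (v m)` and `z = S.sup v`; or (b) `z = 0` and `q` is incompatible (in `le Γ (Iio j)`) with
all `a`, `g i = some (a, S)`. Dense: if `p` is compatible with some `a`, take the least such index `i`, `q ≤ p, a`, and
decide the values (`Val.decideF`). `Full` gives `m` with `Γ j m = x`. First claim: `Val q x n z` gives `q ∈ V n z`,
case (a) with the same index `i` (least), so `z' = v m' ≤ z` by `Val.unique`. Second claim: `q ∈ V n z`: in case (a) each
`v m' ≤ f` by the hypothesis; in case (b) `z = 0`. -/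
def S_GLUE : Prop := ∀ (M T : Type) [LinearOrder T] [WellFoundedLT T] (Γ : Par M T), CCC Γ →
  Full Γ → ∀ (j : T) (g : ℕ → Option (Cond M T × Finset M)), ∃ m : M,
    (∀ i a S, g i = some (a, S) → ∀ q, le Γ (Iio j) q a →
      (∀ i' < i, ∀ a' S', g i' = some (a', S') → ¬ Cmp (le Γ (Iio j)) q a') →
      ∀ n z, Val (le Γ (Iio j)) q (Γ j m) n z →
        ∀ m' ∈ S, ∀ z', Val (le Γ (Iio j)) q (Γ j m') n z' → z' ≤ z) ∧
    ∀ n f : ℕ, (∀ i a S, g i = some (a, S) → ∀ m' ∈ S, ∀ q, le Γ (Iio j) q a → ∀ z',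
        Val (le Γ (Iio j)) q (Γ j m') n z' → z' ≤ f) →
      ∀ q z, Val (le Γ (Iio j)) q (Γ j m) n z → z ≤ f

/-- **XT.** Basic properties of `Xt`.

PROOF. Note that `At Γ j X t f u w` only depends on the part of `w` in `Iio j`, and is inherited by `w'` with
`le Γ (Iio j) w' w` (`Out.mono'` with `W = Iic j`: the conditions `upd w' j v`, `upd w j v`). (1) For `v <+: u`, `At … v w` implies
`At … u w` (`X` is `TreeN`), so `Xt … u ⊆ Xt … v`. (2) by definition. (3) (⇒) Let `le Γ (Iio j) w' w`. `mix (Iio j) w' w ≤ w` is in `Out`,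
so `rst (Iio j) w'` is not in `Xt … u` (it is above `mix (Iio j) w' w`); this gives the `w''` wanted. (⇐) If `r ≤ w` and
`r ≤ s ∈ Xt … u`, then some `w''` with `le Γ (Iio j) w'' r` has `At`, and `le Γ (Iio j) w'' s`,
contradiction to `s ∈ Xt … u`. -/
def S_XT : Prop := ∀ (M T : Type) [LinearOrder T] [WellFoundedLT T] (Γ : Par M T) (j : T)
    (X : TN M T), TreeN Γ X → SupT (Iic j) X → ∀ (t : List ℕ) (f : ℕ),
  TreeN Γ (Xt Γ j X t f) ∧ SupT (Iio j) (Xt Γ j X t f) ∧
    ∀ u w, Out Γ (Xt Γ j X t f u) w ↔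
      ∀ w', le Γ (Iio j) w' w → ∃ w'', le Γ (Iio j) w'' w' ∧ At Γ j X t f u w''

/-- **DEM.** The demands: promises which do what any promises can do.

PROOF (from `S_PRED`, `S_GLUE`, `S_XT`). For each `u` with `|u| ≤ k` let `gu` be given by PRED for
`φ = {w | (∀ i ∉ Iio j, w i = CV.top) ∧ At Γ j X t f u w}`; choose for each `a ∈ φ` the set `pr a` in the definition of
`At`. Apply GLUE to `g i = (gu i).map (fun a => (a, pr a))`: get `m u`. Let `E = {m u | |u| ≤ k}` (finite). Second part of GLUE with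
`n = encode t`: `Bd Γ j w (m u) t f` for all `w`. Now let `|u| ≤ k`, `Out Γ (Xt Γ j X t f u) w`, and suppose that `r3 ≤ upd w j ⟨t, E⟩`,
`r3 ≤ s ∈ X u`. By XT there is `w4`, `le Γ (Iio j) w4 r3`, `At … u w4`; `rst (Iio j) w4 ∈ φ` is compatible with some
`gu i = some a`; so there are `i, a, w5` with `le Γ (Iio j) w5 r3`, `le Γ (Iio j) w5 a`, `gu i = some a`; take the
least such `i`: then `w5` is incompatible (w.r.t. `le Γ (Iio j)`) with all earlier elements. Let `t3 = (r3 j).stem`,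
`z = mix (Iio j) w5 (upd r3 j ⟨t3, (r3 j).pr ∪ pr a⟩)`. `z ≤ r3 ≤ s`. And `le Γ (Iic j) z (upd a j ⟨t, pr a⟩)`: at `j`
(`ext_iff_fol`) let `m' ∈ pr a`, `|t| ≤ i < |t3|`, `le Γ (Iio j) r z`, `Val r (Γ j m') (encode (t3.take i)) n`; extend `r` to
`r'` which decides the value `z'` of `Γ j (m u)` there (`Val.dense`, `Val.mono`); by GLUE `n ≤ z'`, and `z' ≤ t3 i` since
`r3 ≤ upd w j ⟨t, E⟩`. So `Out Γ (X u) z` by `Out.mono'`, which contradicts `z ≤ s`. -/
def S_DEM : Prop := ∀ (M T : Type) [LinearOrder T] [WellFoundedLT T] (Γ : Par M T), CCC Γ →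
  Full Γ → ∀ (j : T) (X : TN M T), TreeN Γ X → SupT (Iic j) X → ∀ (t : List ℕ) (f k : ℕ),
  ∃ E : Finset M, (∀ m ∈ E, ∀ w, Bd Γ j w m t f) ∧
    ∀ w u, u.length ≤ k → Out Γ (Xt Γ j X t f u) w → Out Γ (X u) (upd w j ⟨t, E⟩)

/-- **MD.** A demand for a `GNull` condition.

PROOF (from `S_PRED`, `S_GLUE`, `S_DEM`, `S_XT`). Let `φ` be the set of the conditions `a`, supported in `Iio γ`, with
`le Γ (Iio γ) a w`, for which there are `n, L` with `N * |L| ≤ 2^n` and `Out Γ (Xt Γ j X t f u) (mix (Iio γ) a w)` for `|u| = n`, `u ∉ L`.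
Choose `n a, L a`, and let `E a` be given by DEM for `k = n a`. Take `g` from PRED, and `m` from GLUE for
`i ↦ (g i).map (fun a => (a, E a))`; `Bd` by the second part of GLUE. Let `le Γ (Iio γ) r w`. By `GNull` some `r''` with `le Γ (Iio γ) r'' r` has
`rst (Iio γ) r'' ∈ φ`; it is compatible with some `a = g i`; take `i` least such that there is `r'` with `le Γ (Iio γ) r' r`,
`le Γ (Iio γ) r' a`, `g i = some a`, and then `n = n a`, `L = L a`. By `Out.mono`, `Out Γ (Xt … u) (mix (Iio γ) r' w)`, so by DEM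
`Out Γ (X u) (upd (mix (Iio γ) r' w) j ⟨t, E a⟩)`, for `|u| = n`, `u ∉ L`. Suppose `z ≤ upd (mix (Iio γ) r' w) j ⟨t, {m}⟩` and
`z ≤ s ∈ X u`. Let `z' = upd z j ⟨(z j).stem, (z j).pr ∪ E a⟩ ≤ z`. Then `le Γ (Iic j) z' (upd (mix (Iio γ) r' w) j ⟨t, E a⟩)`, because
below `z` the function named by `m` dominates all those named by elements of `E a` (first part of GLUE; a condition `r` with
`le Γ (Iio j) r z` is below `a` and incompatible with the earlier `a'`, since it is below `r'` on `Iio γ`, and `a'` is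
supported in `Iio γ`). Contradiction by `Out.mono'`. -/
def S_MD : Prop := ∀ (M T : Type) [LinearOrder T] [WellFoundedLT T] (Γ : Par M T), CCC Γ →
  Full Γ → ∀ (γ j : T), γ ≤ j → ∀ (X : TN M T), TreeN Γ X → SupT (Iic j) X →
  ∀ (t : List ℕ) (f N : ℕ) (w : Cond M T), GNull Γ γ (Xt Γ j X t f) w →
  ∃ m : M, (∀ w', Bd Γ j w' m t f) ∧ ∀ r, le Γ (Iio γ) r w → ∃ r', le Γ (Iio γ) r' r ∧
    ∃ (n : ℕ) (L : Finset (List Bool)), N * L.card ≤ 2 ^ n ∧
      ∀ u : List Bool, u.length = n → u ∉ L →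
        Out Γ (X u) (upd (mix (Iio γ) r' w) j ⟨t, {m}⟩)

/-- **TREE.** Construction of the tree of nodes.

PROOF (from `S_PRED`). For a node `π` satisfying the invariant define its children `kid π e : Option (Node M T)`. Choose the
maximal antichains by PRED (uniformly, by `choose`).
A-node (`π.a = true`): for `a : ℕ` let `φ` be the set of the `v` supported in `Iio j` with `le Γ univ v π.w` for which there is `g`
with `∀ m ∈ (p j).pr, Bd Γ j v m (π.t ++ [a]) g` and `GNull Γ γ (Xt Γ j X (π.t ++ [a]) g) v`, and `(g_b)` the antichain of PRED. For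
`e = Nat.pair a b` with `π.f ≤ a` and `g_b = some v`: `kid π e = some ⟨v, π.t ++ [a], g, π.dem ∪ R π ∪ ⋃ k ≤ e, D π.t π.f k, π.wt + e + 2,
false⟩`. The invariant holds: `Fol` for the longer sequence: at the last place the value is `≤ π.f ≤ a` by `Bd`. `φ` is dense below
`π.w`: given `v` with `le Γ (Iio j) v π.w`, extend `v` so that all values of `Γ j m`, `m ∈ (p j).pr`, at `encode (π.t ++ [a])` are decided
(`Val.decideF`), let `g` be their maximum, and apply `hcase`; restrict to `Iio j` (`GNull` and `Bd` depend only on the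
restriction since `γ ≤ j` and `Xt` is supported in `Iio j`).
B-node: `φ` = the set of the `v` supported in `Iio j` with `le Γ univ v π.w` for which there is `f ≥ π.f` with
`∀ m ∈ π.dem ∪ R π ∪ (p j).pr, Bd Γ j v m π.t f` and `GNull Γ γ (Xt Γ j X π.t f) v`; for the `e`-th element `v` of the antichain
`kid π e = some ⟨v, π.t, f, π.dem ∪ R π ∪ ⋃ k ≤ e, D π.t π.f k, π.wt + e + 2, true⟩`. `Bd` for the elements of `D π.t π.f k` holds because
`Bd Γ j w m π.t π.f` for all `w` (`hD`) and `π.f ≤ f`. Density as above.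
Root: `Val.decideF` at `encode (p j).stem`, then `hcase`. Then
`nd [] = some root`, `nd (l ++ [e]) = (nd l).bind (kid · e)` (define `nd l = l.foldl (fun o e => o.bind (kid · e)) (some root)`, so
`List.foldl_append`). Compatibility in `le Γ univ` of conditions supported in `Iio j` is the same as in `le Γ (Iio j)`.
`incomp`: for A-nodes, `π'.t = π''.t` gives the same `a`, so different `b`, for the same antichain. -/
def S_TREE : Prop := ∀ (M T : Type) [LinearOrder T] [WellFoundedLT T] (Γ : Par M T), CCC Γ →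
  ∀ (γ j : T), γ ≤ j → ∀ (X : TN M T), TreeN Γ X → SupT (Iic j) X → ∀ (p : Cond M T)
    (D : List ℕ → ℕ → ℕ → Finset M) (R : Node M T → Finset M),
  (∀ t f k, ∀ m ∈ D t f k, ∀ w, Bd Γ j w m t f) →
  (∀ w t f, le Γ (Iio j) w p → (p j).stem <+: t →
    (∀ m ∈ (p j).pr, Fol Γ j w m (p j).stem t) → (∀ m ∈ (p j).pr, Bd Γ j w m t f) →
    ∃ w', le Γ (Iio j) w' w ∧ GNull Γ γ (Xt Γ j X t f) w') →
  ∃ nd : List ℕ → Option (Node M T), IsTree Γ γ j X p D R nd

/-- **FN.** The name of the function given by the tree.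

PROOF. (1) If `nd l = some π`, `nd l' = some π'`, both are A-nodes, `π.t = π'.t` and `l ≠ l'`, then `π.w` and `π'.w` are
incompatible w.r.t. `le Γ (Iio j)`. By `child`: if `nd (l ++ r) = some π'` then `nd l = some π` for some `π`, and
`π'.w ≤ π.w`, `π.t <+: π'.t`, and the length of `π.t` and the value of `π.a` are determined by the length of `l`
(`|π.t| = |(p j).stem| + (|l| + 1) / 2`, `π.a = true` iff `|l|` even). So `|l| = |l'|`; let `l0` be the longest common initial
segment, `l = l0 ++ [e] ++ _`, `l' = l0 ++ [e'] ++ _`, `e ≠ e'`. The nodes at `l0 ++ [e]`, `l0 ++ [e']` have the same `t` (both are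
initial segments of `π.t` of the same length), so `incomp` applies, and `π.w`, `π'.w` are stronger.
(2) Let `x n k = some (π.w, π.f)` if `nd (decode k) = some π` is an A-node with `encode π.t = n` (`Encodable.decode k : Option (List ℕ)`), and
`none` otherwise. It is supported in `Iio j` (`inv`). `Full` gives `mF`. `Val` with the first alternative, by (1): for `m' < m` with
`x n m' = some (u', v')` the address is different (`decode` injective where defined: `Encodable.decode k = some l` and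
`decode k' = some l` with `k ≠ k'` may both happen; so use instead `x n (encode l)`, i.e. require `k = encode l`). -/
def S_FN : Prop := ∀ (M T : Type) [LinearOrder T] [WellFoundedLT T] (Γ : Par M T), Full Γ →
  ∀ (γ j : T) (X : TN M T) (p : Cond M T)
    (D : List ℕ → ℕ → ℕ → Finset M) (R : Node M T → Finset M) (nd : List ℕ → Option (Node M T)),
  IsTree Γ γ j X p D R nd → ∃ mF : M, NamesF Γ j nd mF

/-- **FOL.** Following.

PROOF. Let `t3 = (z j).stem`, `π.t <+: t3`. Claim: for every `i` with `|π.t| ≤ i < |t3|` there are `w`, `l'`, `π'` with `le Γ (Iio j) w z`,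
`l <+: l'`, `nd l' = some π'`, `π'.a = true`, `π'.t = t3.take i`, `le Γ (Iio j) w π'.w`; moreover `w` can be chosen below any
given `w0` with `le Γ (Iio j) w0 z`. Induction on `i`. Start `i = |π.t|`: if `π` is an A-node take `π' = π`, `w = w0` (`z` is below `π.w` on `Iio j`).
If it is a B-node, `dense` (with `v = w0`) gives a child `π'` compatible with `w0`. Step from `i` to `i + 1 < |t3|`: let `w, l', π'` be
given for `i`. `le Γ (Iic j) z (Qn …)` contains `Fol Γ j z mF π.t t3` (`ext_iff_fol` at `j`, `mF` is a promise of `Qn`), and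
`Val (le Γ (Iio j)) w (Γ j mF) (encode (t3.take i)) π'.f` by `NamesF` and `Val.mono`; so `π'.f ≤ t3 i =: a`. `dense` gives a child `π''`
(B-node) with `t = t3.take i ++ [a] = t3.take (i+1)`, compatible with `w`; and `dense` again an A-child with the same `t`.
Now apply the claim successively for all `i`, each time below the last `w` (finitely many; a property of the form
`Val w … ` or `le … w π'.w` persists). Final `w`: for `i`, `le Γ (Iio j) w π'.w`, `Bd Γ j π'.w m π'.t π'.f` (`hkeep`), and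
`π'.f ≤ t3 i` as above: if `le Γ (Iio j) r w` and `Val r (Γ j m) (encode (t3.take i)) n` then `n ≤ π'.f ≤ t3 i`. That is `Fol Γ j w m π.t t3`.
(The same `w` works for all `m` with `hkeep`; therefore the statement is for a set `E` of promises.) -/
def S_FOL : Prop := ∀ (M T : Type) [LinearOrder T] [WellFoundedLT T] (Γ : Par M T)
    (γ j : T) (X : TN M T) (p : Cond M T)
    (D : List ℕ → ℕ → ℕ → Finset M) (R : Node M T → Finset M) (nd : List ℕ → Option (Node M T)),
  IsTree Γ γ j X p D R nd → ∀ mF : M, NamesF Γ j nd mF → ∀ l π, nd l = some π →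
  ∀ E : Set M, (∀ m ∈ E, ∀ l' π', l <+: l' → nd l' = some π' → π'.a = true →
      Bd Γ j π'.w m π'.t π'.f) →
  ∀ z, le Γ (Iic j) z (Qn j p mF π) →
    ∃ w, le Γ (Iio j) w z ∧ ∀ m ∈ E, Fol Γ j w m π.t (z j).stem

/-- **NT.** The abstract lemma on trees of conditions.

PROOF. Claim(k): for all `l, c, w` with `q l = some (c, w)`, all `δ : ℚ`, `δ > 0`, and all `r` with `le Γ (Iio γ) r c` there are
`r'` with `le Γ (Iio γ) r' r`, `n`, `L` with `|L| / 2^n ≤ δ + 2^{-w} / 2^k`, and `Out Γ (X u) (mix (Iio γ) r' c)` for `|u| = n`,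
`u ∉ L`. `k = 0`: `h1`. `k → k + 1`: by `h2` with `N ≥ 2 / δ`: `r1`, `n0`, `L0`, `e0`. For `e = 0, …, e0 - 1` in turn extend the present `r'` (starting
with `r1`): if `q (l ++ [e]) = some (c', w')` and some `r''` with `le Γ (Iio γ) r'' r'` satisfies `le Γ (Iio γ) r'' c'`, then go to
`r''` and apply Claim(k) to `c'` and `δ 2^{-e-2}`: get `r'''`, `n_e`, `L_e` with `|L_e| / 2^{n_e} ≤ δ 2^{-e-2} + 2^{-w-e-2} / 2^k`.
Otherwise `r'` is incompatible with `c'` on `Iio γ`; put `L_e = ∅`, `n_e = 0`. At the end let `r'` be the final condition, `n` the maximum of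
all `n_e` and `n0`, and `L` the set of all `u` of length `n` with `u.take n0 ∈ L0` or `u.take n_e ∈ L_e` for some `e < e0`;
`|L| / 2^n ≤ δ/2 + ∑_{e < e0} (δ 2^{-e-2} + 2^{-w-e-2} / 2^k) ≤ δ + 2^{-w} / 2^{k+1}` (w.l.o.g. the elements of `L_e` have length `n_e`, otherwise
filter). Let `|u| = n`, `u ∉ L`, and suppose that `z ≤ mix (Iio γ) r' c` and `z ≤ s ∈ X u`. By `hd` (`z ≤ c`, because `mix (Iio γ) r' c ≤ c`) there are
`e, c', w'` with `q (l ++ [e]) = some (c', w')` and `z' ≤ z, c'`. If `e ≥ e0`: `Out Γ (X (u.take n0)) z'` by `h2`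
(`le Γ (Iio γ) z' r1`), and by `TreeN` `Out Γ (X u) z'`, contradiction (`z' ≤ s`). If `e < e0`: `z'` is below `r'` and `c'` on `Iio γ`, so the
first case occurred, and `z' ≤ mix (Iio γ) r''' c'` so `Out Γ (X (u.take n_e)) z'`, contradiction as before.
`GNull Γ γ X c0`: given `N, r` apply Claim(k) with `δ + 2^{-k} ≤ 1/N` (`N = 0` is trivial: use `N = 1`). -/
def S_NT : Prop := ∀ (M T : Type) [LinearOrder T] [WellFoundedLT T] (Γ : Par M T) (γ : T)
    (X : TN M T), TreeN Γ X → ∀ (q : List ℕ → Option (Cond M T × ℕ)) (c0 : Cond M T) (w0 : ℕ),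
  q [] = some (c0, w0) →
  (∀ l e c w c' w', q l = some (c, w) → q (l ++ [e]) = some (c', w') → w' = w + e + 2) →
  (∀ l c w, q l = some (c, w) → ∀ z, le Γ univ z c →
    ∃ e c' w', q (l ++ [e]) = some (c', w') ∧ Cmp (le Γ univ) z c') →
  (∀ l c w, q l = some (c, w) → ∀ r, le Γ (Iio γ) r c → ∃ r', le Γ (Iio γ) r' r ∧
    ∃ (n : ℕ) (L : Finset (List Bool)), 2 ^ w * L.card ≤ 2 ^ n ∧
      ∀ u : List Bool, u.length = n → u ∉ L → Out Γ (X u) (mix (Iio γ) r' c)) →
  (∀ l c w, q l = some (c, w) → ∀ (N : ℕ) r, le Γ (Iio γ) r c → ∃ r', le Γ (Iio γ) r' r ∧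
    ∃ (n : ℕ) (L : Finset (List Bool)), N * L.card ≤ 2 ^ n ∧ ∃ e0 : ℕ, ∀ e, e0 ≤ e →
      ∀ c' w', q (l ++ [e]) = some (c', w') → ∀ z, le Γ univ z c' → le Γ (Iio γ) z r' →
        ∀ u : List Bool, u.length = n → u ∉ L → Out Γ (X u) z) →
  GNull Γ γ X c0

/-- **ND.** The children are predense (hypothesis of NT).

PROOF. Let `π` be at `l`, `z ≤ Qn j p mF π`, `t3 = (z j).stem`, `π.t <+: t3`. If `π` is an A-node, we may assume that `t3 ≠ π.t`: otherwise
replace `z` by an extension with a longer stem (decide all values of `Γ j m`, `m ∈ (z j).pr`, at `encode t3` by a stronger condition on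
`Iio j` (`Val.decideF`), and add a number greater than or equal to all of them to the stem; `ext_iff_fol`). Let `a = t3 |π.t|`. By
`ext_iff_fol` at `j` (`mF` is a promise of `Qn j p mF π`), and `NamesF` (`z` is below `π.w` on `Iio j`, `Val.mono`), `π.f ≤ a`. `dense` with `v = z`
gives a child `π'` with `π'.t = π.t ++ [a]` and `w'` with `le Γ (Iio j) w' z`, `le Γ (Iio j) w' π'.w`. If `π` is a B-node, `dense` gives a
child `π'`, with `π'.t = π.t`, and `w'`. In both cases `z' = mix (Iio j) w' z ≤ z`, and `z' ≤ Qn j p mF π'`: on `Iio j` clear;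
at `j`: `π'.t <+: t3`, the promises are the same as those of `Qn j p mF π`, and `Fol` from `|π'.t|` on follows from `Fol` from `|π.t|` on
(monotone in the condition); above `j` all are extensions of `p`: `Qn` equals `p` there. -/
def S_ND : Prop := ∀ (M T : Type) [LinearOrder T] [WellFoundedLT T] (Γ : Par M T)
    (γ j : T) (X : TN M T) (p : Cond M T)
    (D : List ℕ → ℕ → ℕ → Finset M) (R : Node M T → Finset M) (nd : List ℕ → Option (Node M T)),
  IsTree Γ γ j X p D R nd → ∀ mF : M, NamesF Γ j nd mF → ∀ l π, nd l = some π →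
  ∀ z, le Γ univ z (Qn j p mF π) → ∃ e π', nd (l ++ [e]) = some π' ∧
    Cmp (le Γ univ) z (Qn j p mF π')

/-- **N1.** The bound for the condition of a node.

PROOF (from `S_FOL`). Let `r', n, L` be given by `hR` for `r` (`Qn j p mF π` and `π.w` agree on `Iio γ`). Suppose `|u| = n`, `u ∉ L`,
`z ≤ mix (Iio γ) r' (Qn j p mF π)`, `z ≤ s ∈ X u`. Apply FOL with `E = R π`: for an A-node `π'` at `l'`, `l <+: l'`, `Bd Γ j π'.w m π'.t π'.f`: if
`l' = l` this is `hRB`; otherwise `R π ⊆ dem` of the child of `π` on the way to `π'`, and `dem` grows along the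
branch (`child`), so `m ∈ π'.dem` and `inv` applies. Get `w`, `le Γ (Iio j) w z`, `Fol Γ j w m π.t (z j).stem` for `m ∈ R π`. Let
`z' = mix (Iio j) w (upd z j ⟨(z j).stem, (z j).pr ∪ R π⟩)`. Then `z' ≤ z ≤ s` and
`le Γ (Iic j) z' (upd (mix (Iio γ) r' π.w) j ⟨π.t, R π⟩)`, so `Out Γ (X u) z'` by `Out.mono'`, contradiction. -/
def S_N1 : Prop := ∀ (M T : Type) [LinearOrder T] [WellFoundedLT T] (Γ : Par M T)
    (γ j : T), γ ≤ j → ∀ (X : TN M T), SupT (Iic j) X → ∀ (p : Cond M T)
    (D : List ℕ → ℕ → ℕ → Finset M) (R : Node M T → Finset M) (nd : List ℕ → Option (Node M T)),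
  IsTree Γ γ j X p D R nd → ∀ mF : M, NamesF Γ j nd mF → ∀ l π, nd l = some π →
  (∀ m ∈ R π, ∀ w, Bd Γ j w m π.t π.f) →
  (∀ r, le Γ (Iio γ) r π.w → ∃ r', le Γ (Iio γ) r' r ∧
    ∃ (n : ℕ) (L : Finset (List Bool)), 2 ^ π.wt * L.card ≤ 2 ^ n ∧
      ∀ u : List Bool, u.length = n → u ∉ L →
        Out Γ (X u) (upd (mix (Iio γ) r' π.w) j ⟨π.t, R π⟩)) →
  ∀ r, le Γ (Iio γ) r (Qn j p mF π) → ∃ r', le Γ (Iio γ) r' r ∧
    ∃ (n : ℕ) (L : Finset (List Bool)), 2 ^ π.wt * L.card ≤ 2 ^ n ∧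
      ∀ u : List Bool, u.length = n → u ∉ L → Out Γ (X u) (mix (Iio γ) r' (Qn j p mF π))

/-- **N2.** Almost all children of a node exclude what is excluded by the `GNull` property.

PROOF (from `S_FOL`). `inv` gives `GNull Γ γ (Xt Γ j X π.t π.f) π.w`: for `N` and `r` (which is below `π.w` on `Iio γ`) get `r', n, L` with
`Out Γ (Xt … u) (mix (Iio γ) r' π.w)` for `|u| = n`, `u ∉ L`. Let `e0 = n`. Let `e ≥ n`, `nd (l ++ [e]) = some π'`, `z ≤ Qn j p mF π'`,
`le Γ (Iio γ) z r'`, `|u| = n`, `u ∉ L`. Suppose `z1 ≤ z`, `z1 ≤ s ∈ X u`. Apply FOL at `π'` with `E = D π.t π.f n ⊆ π'.dem`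
(`child`; `dem` grows along branches, and `inv` gives `Bd` at the A-nodes above `l ++ [e]`) and `z1`: get `w`, `le Γ (Iio j) w z1`, with
`Fol Γ j w m π'.t (z1 j).stem`, `m ∈ E`. Even `Fol Γ j w m π.t (z1 j).stem`: if `π` is a B-node, `π'.t = π.t`; if it is an A-node then
`π'.t = π.t ++ [a]`, `π.f ≤ a`, and at `i = |π.t|` the value is at most `π.f ≤ a` by `hDB`. Let
`z2 = mix (Iio j) w (upd z1 j ⟨(z1 j).stem, (z1 j).pr ∪ E⟩) ≤ z1`. Then `le Γ (Iic j) z2 (upd (mix (Iio γ) r' π.w) j ⟨π.t, E⟩)` (on `Iio γ`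
it is below `z ≤ r'`, on `Iio j` below `π'.w ≤ π.w`), so `Out Γ (X u) z2` by `hDE` and `Out.mono'`; contradiction, as `z2 ≤ s`. -/
def S_N2 : Prop := ∀ (M T : Type) [LinearOrder T] [WellFoundedLT T] (Γ : Par M T)
    (γ j : T), γ ≤ j → ∀ (X : TN M T), SupT (Iic j) X → ∀ (p : Cond M T)
    (D : List ℕ → ℕ → ℕ → Finset M) (R : Node M T → Finset M) (nd : List ℕ → Option (Node M T)),
  (∀ t f k, ∀ m ∈ D t f k, ∀ w, Bd Γ j w m t f) →
  (∀ t f k w u, u.length ≤ k → Out Γ (Xt Γ j X t f u) w → Out Γ (X u) (upd w j ⟨t, D t f k⟩)) →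
  IsTree Γ γ j X p D R nd → ∀ mF : M, NamesF Γ j nd mF → ∀ l π, nd l = some π →
  ∀ (N : ℕ) r, le Γ (Iio γ) r (Qn j p mF π) → ∃ r', le Γ (Iio γ) r' r ∧
    ∃ (n : ℕ) (L : Finset (List Bool)), N * L.card ≤ 2 ^ n ∧ ∃ e0 : ℕ, ∀ e, e0 ≤ e →
      ∀ π', nd (l ++ [e]) = some π' → ∀ z, le Γ univ z (Qn j p mF π') → le Γ (Iio γ) z r' →
        ∀ u : List Bool, u.length = n → u ∉ L → Out Γ (X u) z

/-- **SUCC.** The successor step of the dichotomy.

PROOF (from `S_XT`, `S_DEM`, `S_MD`, `S_TREE`, `S_FN`, `S_ND`, `S_N1`, `S_N2`, `S_NT`). `hd` and XT give `Dich` for all `Xt Γ j X t f`, with families `Y t f n`.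
The family for `X` is the collection of all `Y t f n` (enumerate `List ℕ × ℕ × ℕ` by `ℕ`: `Encodable`/`Denumerable`). Let `p` be given.
Case 1: there are `w, t, f` with `le Γ (Iio j) w p`, `(p j).stem <+: t`, `Fol Γ j w m (p j).stem t` and `Bd Γ j w m t f` for all `m ∈ (p j).pr`, and
no `w'` with `le Γ (Iio j) w' w` and `GNull Γ γ (Xt … t f) w'`. By the dichotomy for `Xt … t f` there are `q0 ≤ w`, `n` with
`Capt Γ γ (Xt … t f) (Y t f n) q0`. Let `q = mix (Iio j) q0 (upd p j ⟨t, (p j).pr⟩)`. `q ≤ p` (at `j` by `Fol`). `Capt Γ γ X (Y t f n) q`: let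
`le Γ (Iio γ) r q`, `Out Γ (X u) (mix (Iio γ) r q)`. Then `Out Γ (Xt … t f u) (mix (Iio γ) r q0)` by XT(3): if
`le Γ (Iio j) w' (mix (Iio γ) r q0)` then `At … t f u w'` with `pr = (p j).pr`: `Bd` is inherited from `w`, and
`le Γ (Iic j) (upd w' j ⟨t, (p j).pr⟩) (mix (Iio γ) r q)`. So `Out Γ (Y t f n u) r` by `Capt` for `q0` (`q` and `q0` agree on `Iio γ`).
Case 2: otherwise. Choose `D` by DEM, and for nodes `π` with `GNull Γ γ (Xt … π.t π.f) π.w` let `R π = {m}`, with `m` given by MD for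
`N = 2 ^ π.wt` (and `R π = ∅` for other nodes). TREE gives `nd`, FN gives `mF`. Apply NT to `q l = (nd l).map (fun π => (Qn j p mF π, π.wt))`, with
ND, N1, N2. It gives `GNull Γ γ X (Qn j p mF root)`, and `Qn j p mF root ≤ p` (`inv`; same stem at `j`). -/
def S_SUCC : Prop := ∀ (M T : Type) [LinearOrder T] [WellFoundedLT T] (Γ : Par M T), CCC Γ →
  Full Γ → ∀ (γ j : T), γ ≤ j → ∀ (X : TN M T), TreeN Γ X → SupT (Iic j) X →
  (∀ X' : TN M T, TreeN Γ X' → SupT (Iio j) X' → Dich Γ γ X') → Dich Γ γ X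

/-- **DICH.** The dichotomy for all names.

PROOF (from `S_CNT`, `S_DB`, `S_DL`, `S_SUCC`). If `X'` has the same `Out` as `X` (`∀ u q, Out Γ (X' u) q ↔ Out Γ (X u) q`), then
`TreeN`, `GNull`, `Capt`, `Dich` are the same. Claim(β): `Dich Γ γ X` for each `TreeN` name `X` supported in `Iio β`. Well-founded
induction on `β`. If `β ≤ γ`: DB. Otherwise replace `X u` by `{s | ∃ m, g u m = some s}` (CNT with `W = Iio β`). Let `J ⊆ Iio β` be the set of the coordinates `t`
with `s t ≠ CV.top` for some `s ∈ X u` and some `u` (countable). If `J = ∅` or all elements of `J` are `< γ`: DB. Otherwise if `J` has a greatest element `j`, then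
`γ ≤ j < β`, `X` is supported in `Iic j`, and SUCC applies with Claim(j). Otherwise `J` has no greatest element; choose `j0 ∈ J`, `γ ≤ j0`, and
(countable set without maximum) a monotone sequence `i n ∈ J`, `j0 ≤ i n`, such that each element of `J` is `< i n` for some `n`; so each
finite subset of `J` is contained in some `Iio (i n)`. DL applies, with Claim(i n).
Finally for an arbitrary `X` (not supported below some `β`): by CNT with `W = univ` we may assume that `X u` is countable for all `u`; the set `J` of the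
coordinates is countable, so by `hT` it is contained in `Iio β` for some `β`. -/
def S_DICH : Prop := ∀ (M T : Type) [LinearOrder T] [WellFoundedLT T] (Γ : Par M T), CCC Γ →
  Full Γ → (∀ S : Set T, S.Countable → ∃ β, ∀ t ∈ S, t < β) → ∀ (γ : T) (X : TN M T),
  TreeN Γ X → Dich Γ γ X

end Pool.Agent.H631.TH
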