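import Mathlib

/-!
# The combinatorial principle, and the statements of the ZFC part
-/

set_option autoImplicit false

namespace Pool.Agent.H631.TH

open MeasureTheory Set Filter Topology

/-- `F` is an `F_σ` set -/
def IsFSigma {X : Type} [TopologicalSpace X] (F : Set X) : Prop :=
  ∃ C : ℕ → Set X, (∀ n, IsClosed (C n)) ∧ F = ⋃ n, C n

/-- countably perfectly meager -/
def PMSigma {X : Type} [TopologicalSpace X] (A : Set X) : Prop :=
  ∀ P : ℕ → Set X, (∀ n, (P n).Nonempty ∧ Perfect (P n)) →
    ∃ F : Set X, IsFSigma F ∧ A ⊆ F ∧ ∀ n, IsMeagre {z : P n | (z : X) ∈ F}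

/-- countably perfectly null -/
def PNSigma {X : Type} [TopologicalSpace X] [MeasurableSpace X] (A : Set X) : Prop :=
  ∀ μ : Measure X, IsFiniteMeasure μ → (∀ x, μ {x} = 0) →
    ∃ F : Set X, IsFSigma F ∧ A ⊆ F ∧ μ F = 0

/-- the sequence `u` is an initial segment of the characteristic function of `a` -/
def Init (u : List Bool) (a : Set ℕ) : Prop :=
  (∀ i : ℕ, u[i]? = some true → i ∈ a) ∧ ∀ i : ℕ, u[i]? = some false → i ∉ a

/-- the set of the reals all whose initial segments are in `F` is null -/
def Thin (F : Set (List Bool)) : Prop :=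
  ∀ N : ℕ, ∃ n : ℕ, ∃ L : Finset (List Bool), N * L.card ≤ 2 ^ n ∧
    ∀ u : List Bool, u ∈ F → u.length = n → u ∈ L

/-- `P` is a tree, and the set of its branches has measure at least `1 / c` for some `c` -/
def Fat (P : Set (List Bool)) : Prop :=
  (∀ u v : List Bool, v <+: u → u ∈ P → v ∈ P) ∧
    ∃ c : ℕ, ∀ k : ℕ, ∃ L : Finset (List Bool), 2 ^ k ≤ c * L.card ∧
      ∀ u ∈ L, u.length = k ∧ u ∈ P

/-- The combinatorial principle: there are null `F_σ` sets `F t`, `t : T`, such that whenever
`a t ∉ F t` for all `t`, there are closed sets of positive measure `P n`, such that for each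
sequence of closed sets `C m` which cover `{a t | t : T}` some `P n` is a subset of some `C m`. -/
def PhiFor (T : Type) : Prop :=
  ∃ F : T → ℕ → Set (List Bool), (∀ t k, Thin (F t k)) ∧
    ∀ a : T → Set ℕ, (∀ t k, ∃ u, Init u (a t) ∧ u ∉ F t k) →
      ∃ P : ℕ → Set (List Bool), (∀ n, Fat (P n)) ∧
        ∀ C : ℕ → Set (List Bool), (∀ t, ∃ m, ∀ u, Init u (a t) → u ∈ C m) →
          ∃ m n, ∀ u, u ∈ P n → u ∈ C m

/-! ### The statements -/

/-- **BASE.** A countable base of open sets with null boundaries.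

PROOF. If `X` is empty take `B n = ∅`. Otherwise use a metric (`letI :=
TopologicalSpace.upgradeIsCompletelyMetrizable X`), a dense sequence `d` (`denseSeq X`), and for every
`i` and all rationals `0 < a < b` the Mathlib lemma `exists_null_frontier_thickening μ {d i} hab`,
which gives `r ∈ Ioo a b` with `μ (frontier (Metric.thickening r {d i})) = 0`
(`Metric.thickening_singleton`: this is the ball). The balls so obtained (indexed by
`i, a, b`, a countable type; enumerate it by `ℕ` with `Denumerable`/`Encodable`, using `∅` for the rest) form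
a base: if `ball x ε ⊆ U`, choose rationals `0 < a < b < ε/2` and `i` with `dist x (d i) < a`. -/
def S_BASE : Prop := ∀ (X : Type) [TopologicalSpace X] [PolishSpace X] [MeasurableSpace X]
    [BorelSpace X] (μ : Measure X) [IsFiniteMeasure μ],
  ∃ B : ℕ → Set X, (∀ n, IsOpen (B n)) ∧ (∀ n, μ (frontier (B n)) = 0) ∧
    ∀ x : X, ∀ U : Set X, IsOpen U → x ∈ U → ∃ n, x ∈ B n ∧ B n ⊆ U

/-- **REAL.** A real valued function which codes the base.

PROOF. Let `h x = ∑' n, (B n).indicator (fun _ => (1/3)^n) x` (terms bounded by `(1/3)^n`, summable).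
Measurable: countable sum of measurable functions (or: pointwise limit of the partial sums).
Continuous on `(⋃ n, frontier (B n))ᶜ`: `continuousOn_tsum`, each term is continuous at each point
outside the frontier of `B n` (it is locally constant there: `x ∈ interior (B n) = B n` or
`x ∈ (closure (B n))ᶜ`). If `x` and `y` do not agree on `B 0, …, B n` and `k ≤ n` is the first number
where they differ, `|h x - h y| ≥ (1/3)^k - ∑_{i>k} (1/3)^i = (1/3)^k / 2 ≥ (1/3)^n / 2`. So if
`h x ∈ closure (h '' S)` and `U` is an open neighbourhood of `x`, choose `n` with `x ∈ B n ⊆ U` and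
`s ∈ S` with `|h x - h s| < (1/3)^n / 2`; then `s ∈ B n ⊆ U`. -/
def S_REAL : Prop := ∀ (X : Type) [TopologicalSpace X] [MeasurableSpace X] [BorelSpace X]
    (B : ℕ → Set X), (∀ n, IsOpen (B n)) →
  (∀ x : X, ∀ U : Set X, IsOpen U → x ∈ U → ∃ n, x ∈ B n ∧ B n ⊆ U) →
  ∃ h : X → ℝ, Measurable h ∧ ContinuousOn h (⋃ n, frontier (B n))ᶜ ∧
    ∀ (S : Set X) (x : X), h x ∈ closure (h '' S) → x ∈ closure S

/-- **CDF.** The distribution function of a finite non-atomic measure on `ℝ`.

PROOF. `F r = (ν (Iic r)).toReal` is monotone; continuous since `ν {r} = 0` (continuity of measures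
from below and above; e.g. `tendsto_measure_iInter...`, or `StieltjesFunction`/`ProbabilityTheory.cdf` lemmas),
with limit `0` at `-∞` and `(ν univ).toReal` at `+∞`. For `0 ≤ c ≤ ν univ`: the set `{r | F r < c}` is an open
lower set: it is `∅` (then `c = 0`, since `F` has limit `0` at `-∞`), or `univ`
(then `c = ν univ`, since `F` tends to `ν univ`), or `Iio b`, where `F b = c` by continuity; and
`ν (Iio b) = ν (Iic b) = c`. For the last statement: for each such `c` choose `a < b` with
`F a = F b = c`; the open intervals `(a, b)` are disjoint for different `c` (monotone), nonempty: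
`Set.PairwiseDisjoint.countable_of_isOpen` or choose a rational in each. -/
def S_CDF : Prop := ∀ (ν : Measure ℝ) [IsFiniteMeasure ν], (∀ r, ν {r} = 0) →
  Continuous (fun r => (ν (Iic r)).toReal) ∧ Monotone (fun r => (ν (Iic r)).toReal) ∧
    (∀ c : ℝ, 0 ≤ c → c ≤ (ν univ).toReal →
      ν {r | (ν (Iic r)).toReal < c} = ENNReal.ofReal c) ∧
    {c : ℝ | ∃ a b : ℝ, a < b ∧ (ν (Iic a)).toReal = c ∧ (ν (Iic b)).toReal = c}.Countable

/-- the binary digits of `r` -/
noncomputable def dig (r : ℝ) (n : ℕ) : Bool := decide (⌊r * 2 ^ (n + 1)⌋ % 2 = 1)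

/-- **BIN.** Binary expansions.

PROOF. (1) Induction on the length of `u` (from the right: `List.reverseRecOn`, or prove: for
`r ∈ [0,1)`, `⌊r 2^n⌋ = ∑_{i<n} [dig r i] 2^{n-1-i}`); the set is the interval of the `r` with
`⌊r 2^n⌋ = k`, `k` the number with the binary digits `u`. (2) If `r` is not dyadic then `r 2^{n+1}` is
not an integer, so `⌊· 2^{n+1}⌋` is constant near `r`; continuity into `ℕ → Bool` is coordinatewise
(`continuousOn_pi`). (3) Given `ε`, take `n` with `2^{-n} < ε`; a point `s ∈ S` whose first `n`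
digits agree with those of `r` has `⌊s 2^n⌋ = ⌊r 2^n⌋`, so `|s - r| ≤ 2^{-n}`. -/
def S_BIN : Prop :=
  (∀ u : List Bool, ∃ k : ℕ, k < 2 ^ u.length ∧
    {r : ℝ | r ∈ Ico (0 : ℝ) 1 ∧ ∀ i, ∀ hi : i < u.length, dig r i = u[i]} =
      Ico ((k : ℝ) / 2 ^ u.length) (((k : ℝ) + 1) / 2 ^ u.length)) ∧
  ContinuousOn dig {r : ℝ | ∀ (n : ℕ) (k : ℤ), r ≠ k / 2 ^ n} ∧
  ∀ S : Set ℝ, S ⊆ Ico 0 1 → ∀ r ∈ Ico (0 : ℝ) 1, dig r ∈ closure (dig '' S) → r ∈ closure S

/-- **EMB.** After removing a null `F_σ` set, a finite non-atomic measure on a Polish space becomes a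
multiple of the standard measure on `2^ℕ`, by a topological embedding.

PROOF (from `S_BASE`, `S_REAL`, `S_CDF`, `S_BIN`). Let `B`, `h` be given by BASE, REAL, `ν = μ.map h`; `ν {r} = 0`,
since `h ⁻¹' {r}` has at most one point: if `h x = h y`, then `x ∈ closure {y} = {y}`. Put `m = (μ univ).toReal > 0`,
`f x = (ν (Iic (h x))).toReal / m`, so `0 ≤ f ≤ 1`, `μ {x | f x < c} = ofReal (c m)` for `0 ≤ c ≤ 1`
(`Measure.map_apply`), hence `μ {x | f x = c} = 0` for all `c` (for `c<1`: it is contained in
`{f < c + δ} \ {f < c}`; for `c = 1` in the complement of `{f < 1}`). Let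
`D` be the countable set of all dyadic rationals `k / 2^n` and all `c / m`, `c` in the countable set of
CDF. Let the sets `Z n` be: all `frontier (B n)`, and all
`closure (f ⁻¹' {d} \ ⋃ n, frontier (B n))`, `d ∈ D`. They are null: `f` is continuous outside of
`⋃ frontier (B n)`, so such a closure is contained in `f ⁻¹' {d} ∪ ⋃ frontier (B n)`.
Let `Zs = ⋃ Z n` and `G x = dig (f x)`. For `x ∉ Zs`: `f x ∉ D`, in particular `f x ∈ (0, 1)` is not dyadic.
`G` is continuous on `Zsᶜ` (composition). If `x ∉ Zs`, `S ⊆ Zsᶜ`, `G x ∈ closure (G '' S)`: BIN(3) gives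
`f x ∈ closure (f '' S)`. Then `h x ∈ closure (h '' S)`: for `ε > 0`,
`ν (Iic (h x - ε)) < ν (Iic (h x)) < ν (Iic (h x + ε))` (as reals), because `m f x` is not in the countable
set of CDF; so each `s ∈ S` with `f s` close to `f x` has `|h s - h x| < ε`. Hence `x ∈ closure S`.
Measure: by BIN(1), `{x | ∀ i < |u|, G x i = u i} \ Zs = {x | k/2^n ≤ f x < (k+1)/2^n} \ Zs`, of measure
`m/2^n`. -/
def S_EMB : Prop := ∀ (X : Type) [TopologicalSpace X] [PolishSpace X] [MeasurableSpace X]
    [BorelSpace X] (μ : Measure X) [IsFiniteMeasure μ], (∀ x, μ {x} = 0) → μ univ ≠ 0 →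
  ∃ (Z : ℕ → Set X) (G : X → ℕ → Bool), (∀ n, IsClosed (Z n)) ∧ (∀ n, μ (Z n) = 0) ∧
    ContinuousOn G (⋃ n, Z n)ᶜ ∧
    (∀ S ⊆ (⋃ n, Z n)ᶜ, ∀ x ∈ (⋃ n, Z n)ᶜ, G x ∈ closure (G '' S) → x ∈ closure S) ∧
    ∀ u : List Bool, μ ({x | ∀ i, ∀ hi : i < u.length, G x i = u[i]} \ ⋃ n, Z n) =
      μ univ / 2 ^ u.length

/-- **SUPP.** The support of a nonzero finite non-atomic measure is perfect, and contained in every
closed set of full measure.

PROOF. `X` is second countable: let `Q` be the complement of the union of all null open sets (of a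
countable base), `ν Qᶜ = 0` (Mathlib: `MeasureTheory.Measure.support`). `Q` is closed; nonempty, because `ν ≠ 0`;
no isolated points: if `U ∩ Q = {x}` with `U` open then `ν U ≤ ν {x} + ν Qᶜ = 0`, so `U` is disjoint from
`Q`. If `C` is closed and `ν Cᶜ = 0` then `Cᶜ` is a null open set, so `Q ⊆ C`. -/
def S_SUPP : Prop := ∀ (X : Type) [TopologicalSpace X] [PolishSpace X] [MeasurableSpace X]
    [BorelSpace X] (ν : Measure X) [IsFiniteMeasure ν], (∀ x, ν {x} = 0) → ν univ ≠ 0 →
  ∃ Q : Set X, Q.Nonempty ∧ Perfect Q ∧ ∀ C : Set X, IsClosed C → ν Cᶜ = 0 → Q ⊆ C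

/-- **TRANS.** The principle implies that countably perfectly meager sets are countably perfectly
null.

PROOF (from `S_EMB`, `S_SUPP`). Let `A` be `PMSigma`, and suppose that `μ` is a finite
non-atomic measure such that no `F_σ` set `F ⊇ A` is null. Then `μ univ ≠ 0` (`F = univ`). Let `Z, G`
be as in EMB, `Zs = ⋃ n, Z n`, and for `x` let `g x = {i | G x i = true} : Set ℕ`. Note: for `u` of length `n`,
`Init u (g x)` iff `∀ i < n, G x i = u i`.
(1) If `F' k`, `k : ℕ`, are `Thin`, then there is `x ∈ A \ Zs` such that for every `k` some `u` with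
`Init u (g x)` is not in `F' k`. Otherwise `A ⊆ Zs ∪ ⋃ k, closure (E k)` where `E k =
{x ∉ Zs | ∀ u, Init u (g x) → u ∈ F' k}`; this is an `F_σ` set, and it is null: `E k` is relatively closed in
`Zsᶜ` by continuity of `G` on `Zsᶜ`, so `closure (E k) ⊆ E k ∪ Zs`, and `μ (E k) ≤ |L| μ univ / 2^n ≤ μ univ / N` for all
`N` with `n, L` given by `Thin`, because `E k` is contained in the union of the sets
`{x ∉ Zs | ∀ i < n, G x i = u i}`, `u ∈ L`, `|u| = n`.
(2) Let `F` be given by `PhiFor T`. By (1) choose `x t ∈ A \ Zs` for the sequence `F t`, and put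
`a t = g (x t)`. Let `P` be given by the principle.
(3) For each `n` let `R n = {x ∉ Zs | ∀ u, Init u (g x) → u ∈ P n}`. `μ (R n) > 0`: with `c` from `Fat`, `R n` is the
decreasing intersection over `k` of the sets `R n k = {x ∉ Zs | the u of length k with Init u (g x) is in P n}`, and
`μ (R n k) ≥ |L| μ univ / 2^k ≥ μ univ / c` (`c > 0` because `2^0 ≤ c * _`); use
`tendsto_measure_iInter_atTop` or so (all sets measurable: `R n k` is a finite union of sets `{...}`; measurability
of `{x ∉ Zs | ∀ i < n, G x i = u i}` from `ContinuousOn G Zsᶜ`: it is relatively open in `Zsᶜ`).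
Let `Q n` be given by SUPP for `ν = μ.restrict (R n)`.
(4) By `PMSigma` for the `Q n` there is an `F_σ` set `F1 = ⋃ m, C1 m ⊇ A`, `C1 m` closed, with `F1 ∩ Q n` meager in `Q n`
for all `n`. Let `C m = {u | ∃ x ∈ C1 m \ Zs, Init u (g x)}`. For `t` there is `m` with `x t ∈ C1 m`, so all
initial segments of `a t` are in `C m`. By the principle there are `m, n` with `P n ⊆ C m`.
(5) `R n ⊆ C1 m`: if `x ∈ R n` then all initial segments of `g x` are in `P n ⊆ C m`, so
`G x ∈ closure (G '' (C1 m \ Zs))`, so `x ∈ closure (C1 m \ Zs) ⊆ C1 m` by EMB. So `ν (C1 m)ᶜ = 0`, and `Q n ⊆ C1 m ⊆ F1`.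
So `{z : Q n | z ∈ F1} = univ` is meager in `Q n`, which contradicts the Baire category theorem in the
nonempty Polish space `Q n` (closed subset of a Polish space: `IsClosed.polishSpace`;
`not_isMeagre_of_isOpen` / `dense_of_mem_residual`). -/
def S_TRANS : Prop := ∀ T : Type, PhiFor T → ∀ (X : Type) [TopologicalSpace X] [PolishSpace X]
    [MeasurableSpace X] [BorelSpace X] (A : Set X), PMSigma A → PNSigma A

/-- **PNPM.** Countably perfectly null sets are countably perfectly meager.

PROOF. Let `P n` be nonempty perfect sets. For every `n` there is a finite non-atomic measure `μ n`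
with `μ n (univ) ≤ 2^{-n}` and `μ n U > 0` for every open `U` with `U ∩ P n ≠ ∅`: for
every set `V` of a countable base which meets `P n` there is a continuous injection
`f : (ℕ → Bool) → X` with range in `P n ∩ V` (`Perfect.exists_nat_bool_injection` applied to a
nonempty perfect subset of `P n ∩ V`: Mathlib has `Perfect.closure_nhds_inter` / `Perfect.small_diam_aux`; first
shrink `V`: choose an open `W` with `closure W ⊆ V` (regular space) which still meets `P n`; then
`closure (W ∩ P n)` is perfect and contained in `V ∩ P n`); push forward a non-atomic probability measure on `ℕ → Bool`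
(e.g. `Measure.infinitePi`/`productMeasure` of the fair coin; or push forward Lebesgue measure on
`[0,1]` by a Borel isomorphism `ℝ ≃ᵐ (ℕ → Bool)`, `PolishSpace.measurableEquivOfNotCountable`), and take a
weighted sum over the base. Let `μ = ∑ μ n` (finite, non-atomic), and let `F = ⋃ C k ⊇ A`, `μ F = 0`. Then
`C k ∩ P n` is a closed subset of `P n` without interior in `P n` (an open `U` with
`∅ ≠ U ∩ P n ⊆ C k`... has `μ (U ∩ P n) > 0`, because `μ n` is supported by `P n`), so it is nowhere dense. -/
def S_PNPM : Prop := ∀ (X : Type) [TopologicalSpace X] [PolishSpace X]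
    [MeasurableSpace X] [BorelSpace X] (A : Set X), PNSigma A → PMSigma A

end Pool.Agent.H631.TH
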