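import Pool.Agent.H631.TH.FStm
import Pool.Agent.H631.TH.ZStm
import Pool.Graph.R_seed8.Helper669.Forcing

/-!
# The sentence which is forced, and the statements of the last part
-/

set_option autoImplicit false
set_option linter.unusedSectionVars false
set_option linter.unusedVariables false

namespace Pool.Agent.H631.TH

open Classical Set Pool.Agent.Helper669.Forcing

/-! ### The sentence of the forcing language -/

section Sentence

variable {P : Type} [Preorder P]

/-- forcing version of `Init`; a real is named by a map from `ℕ` to the sets of conditions -/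
def InitN (u : List Bool) (a : ℕ → Set P) : Set P :=
  fand (fall fun i : ℕ => fimp (fground (u[i]? = some true)) (meets (a i)))
    (fall fun i : ℕ => fimp (fground (u[i]? = some false)) (fnot (meets (a i))))

/-- forcing version of `Thin` -/
def ThinS (F : List Bool → Set P) : Set P :=
  fall fun N : ℕ => fex fun n : ℕ => fex fun L : Finset (List Bool) =>
    fand (fground (N * L.card ≤ 2 ^ n)) (fall fun u : List Bool =>
      fimp (meets (F u)) (fimp (fground (u.length = n)) (fground (u ∈ L))))

/-- forcing version of `Fat` -/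
def FatS (X : List Bool → Set P) : Set P :=
  fand (fall fun u : List Bool => fall fun v : List Bool =>
      fimp (fground (v <+: u)) (fimp (meets (X u)) (meets (X v))))
    (fex fun c : ℕ => fall fun k : ℕ => fex fun L : Finset (List Bool) =>
      fand (fground (2 ^ k ≤ c * L.card)) (fall fun u : List Bool =>
        fimp (fground (u ∈ L)) (fand (fground (u.length = k)) (meets (X u)))))

/-- The sentence `PhiFor T` of the forcing language. -/
def PhiHolds (P : Type) [Preorder P] (T : Type) : Set P :=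
  fex fun F : T → ℕ → List Bool → Set P =>
    fand (fall fun t => fall fun k => ThinS (F t k))
      (fall fun a : T → ℕ → Set P =>
        fimp (fall fun t => fall fun k => fex fun u : List Bool =>
            fand (InitN u (a t)) (fnot (meets (F t k u))))
          (fex fun Y : ℕ → List Bool → Set P => fand (fall fun n => FatS (Y n))
            (fall fun C : ℕ → List Bool → Set P =>
              fimp (fall fun t => fex fun m : ℕ => fall fun u : List Bool =>
                  fimp (InitN u (a t)) (meets (C m u)))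
                (fex fun m : ℕ => fex fun n : ℕ => fall fun u : List Bool =>
                  fimp (meets (Y n u)) (meets (C m u))))))

end Sentence

/-- **UNIT.** The meaning of the sentence: over the trivial notion of forcing it is `PhiFor`.

PROOF. See `Pool/Agent/H631/ED/UnitM.lean`: the lemmas `u_fnot`, `u_fall`, `u_fand`, `u_fground`, `u_fex`, `u_fimp`,
`u_meets` there (copy them) rewrite everything; names `X : ι → Set Unit` correspond to the sets `{i | p ∈ X i}`
(for the existential quantifiers use the names `fun i => {_q | i ∈ S}`). -/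
def S_UNIT : Prop := ∀ (T : Type) (p : Unit), p ∈ PhiHolds Unit T ↔ PhiFor T

/-! ### The preorder of the conditions -/

section PPdef

variable {M T : Type} [LinearOrder T] [WellFoundedLT T]

/-- the conditions, with the order given by the parameters -/
def PP (_Γ : Par M T) : Type := Cond M T

variable {Γ : Par M T}

noncomputable instance : Preorder (PP Γ) where
  le q p := le Γ Set.univ q p
  le_refl p := le_refl' Set.univ p
  le_trans _ _ _ h1 h2 := le_trans' low_univ h1 h2

theorem PP.le_def {q p : PP Γ} : q ≤ p ↔ le Γ Set.univ q p := Iff.rfl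

theorem mem_meets {N : Set (PP Γ)} {p : PP Γ} :
    p ∈ meets N ↔ Inn Γ (N : Set (Cond M T)) (p : Cond M T) := by
  constructor
  · intro h q hq ho
    obtain ⟨r, hr, s, hs, hrs⟩ := h q hq
    exact ho s hs ⟨r, hr, hrs⟩
  · intro h q hq
    by_contra hcon
    refine h q hq fun s hs ⟨r, hr, hrs⟩ => hcon ⟨r, hr, s, hs, hrs⟩

theorem mem_fnot_meets {N : Set (PP Γ)} {p : PP Γ} :
    p ∈ fnot (meets N) ↔ Out Γ (N : Set (Cond M T)) (p : Cond M T) := by
  constructor
  · rintro h s hs ⟨r, hr, hrs⟩
    exact h r hr (fun q hq => ⟨q, le_rfl, s, hs, le_trans' low_univ hq hrs⟩)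
  · intro h q hq hm
    obtain ⟨r, hr, s, hs, hrs⟩ := hm q le_rfl
    exact h s hs ⟨r, le_trans' low_univ hr hq, hrs⟩

/-- the tree of the initial segments of a real -/
def XA (Γ : Par M T) (a : ℕ → Set (PP Γ)) : TN M T := fun u => (InitN u a : Set (PP Γ))

/-- the named tree has no terminal nodes -/
def PrunedN (Γ : Par M T) (X : TN M T) : Prop :=
  ∀ (u : List Bool) (l : ℕ) (q : Cond M T), u.length ≤ l →
    (∀ v : List Bool, u <+: v → v.length = l → Out Γ (X v) q) → Out Γ (X u) q

/-! ### The null sets -/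

/-- the end points of the blocks, computed from the stem `s` -/
def blk (s : List ℕ) : ℕ → ℕ
  | 0 => 0
  | k + 1 => blk s k + 1 + s.getD (blk s k) 0

/-- the set of sequences coded by `c` at `n`; it has measure at most `1 / 2 ^ n`, and the second component
of `c` is not used -/
noncomputable def Lc (n c : ℕ) : Finset (List Bool) :=
  match (Encodable.decode (Nat.unpair c).1 : Option (Finset (List Bool))) with
  | some L => if ∃ l : ℕ, (∀ v ∈ L, v.length = l) ∧ 2 ^ n * L.card ≤ 2 ^ l then L else ∅
  | none => ∅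

/-- `r` excludes `u`: for some block, computed from the stem at `t'`, no set coded by the stem at `t` at
the elements of the block contains a sequence comparable with `u` -/
def Excl (t t' : T) (k0 : ℕ) (u : List Bool) (r : Cond M T) : Prop :=
  ∃ k, k0 ≤ k ∧ blk (r t').stem k < (r t').stem.length ∧
    blk (r t').stem (k + 1) ≤ (r t).stem.length ∧
    ∀ n, blk (r t').stem k ≤ n → n < blk (r t').stem (k + 1) →
      ∀ v ∈ Lc n ((r t).stem.getD n 0), ¬ v <+: u ∧ ¬ u <+: v

/-- the name of the null tree -/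
def FNm (Γ : Par M T) (t t' : T) (k0 : ℕ) : TN M T := fun u =>
  {r | ∀ r', le Γ univ r' r → ¬ Excl t t' k0 u r'}

/-- at `n` the stem of `r` at `t` codes a set which is forced to contain the real -/
def Gd (Γ : Par M T) (t : T) (X : TN M T) (q : Cond M T) (n : ℕ) (r : Cond M T) : Prop :=
  n < (r t).stem.length ∧ ∃ l : ℕ, ∀ v : List Bool, v.length = l →
    v ∉ Lc n ((r t).stem.getD n 0) → Out Γ (X v) (mix (Iio t) r q)

end PPdef

/-- **EX.** Longer stems.

PROOF. Induction on `N`. One step: let `s = (p j).stem`. `Val.decideF` (with `W = Iio j`) gives `w`, `le Γ (Iio j) w p`, which decides the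
values at `encode s` of all `Γ j m`, `m ∈ (p j).pr`. Let `a` be greater than or equal to all these values and to `b`, and
`q = mix (Iio j) w (upd p j ⟨s ++ [a], (p j).pr⟩)`; `ext_iff_fol` at `j`. -/
def S_EX : Prop := ∀ (M T : Type) [LinearOrder T] [WellFoundedLT T] (Γ : Par M T) (j : T)
    (p : Cond M T) (N : ℕ), ∃ q, le Γ univ q p ∧ N ≤ (q j).stem.length ∧ ∀ i, j < i → q i = p i

/-- **FB.** Basic facts on the names of the null trees.

PROOF. (1) If `r' ≤ r` the stems of `r'` at `t`, `t'` extend those of `r`; if `blk s k < s.length` then (by induction, `blk s` is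
strictly increasing) `blk s' i = blk s i` for `i ≤ k + 1` and all `s'` which extend `s`. (2) `Out Γ (FNm … u) q` iff no `r ≤ q` is in `FNm … u`
(`FNm … u` is closed under stronger conditions), iff for all `r ≤ q` there is `r' ≤ r` with `Excl … r'`. -/
def S_FB : Prop := ∀ (M T : Type) [LinearOrder T] [WellFoundedLT T] (Γ : Par M T) (t t' : T)
    (k0 : ℕ) (u : List Bool),
  (∀ r r' : Cond M T, le Γ univ r' r → Excl t t' k0 u r → Excl t t' k0 u r') ∧
    ∀ q, Out Γ (FNm Γ t t' k0 u) q ↔
      ∀ r, le Γ univ r q → ∃ r', le Γ univ r' r ∧ Excl t t' k0 u r'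

/-- **TF.** The trees are null.

PROOF (from `S_EX`, `S_FB`). Let `k ≥ k0` with `N * 2 ≤ 2 ^ k`. By EX extend `p` at `t'` so that the stem there has length `> b`
where `b = blk s k`: the length of the stem must be greater than `blk s k`; extend step by step: if `|s| > blk s i` then
`blk s (i+1)` does not change when `s` is extended, so extend `s` to have length `> blk s (i + 1)`. Then `b0 = blk s k`, `b1 = blk s (k + 1)` are
fixed. Extend at `t` (this does not change the coordinate `t' > t`), so that the stem at `t` has length `≥ b1`. Result: `q`. Let `n` be at least the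
length of all elements of `Lc i ((q t).stem.getD i 0)`, `b0 ≤ i < b1`, and `L` the set of the `u` of length `n` which have an
initial segment in one of these sets. By the definition of `Lc`, the elements of `Lc i c` have the same length `l` and `2^i * |Lc i c| ≤ 2^l`, so
`|L| ≤ ∑_{b0 ≤ i < b1} 2^n / 2^i ≤ 2^n * 2 / 2^b0 ≤ 2^n * 2 / 2^k` (`k ≤ b0`), and `N * |L| ≤ 2^n`. If `|u| = n`, `u ∉ L`, then `q` satisfies
`Excl t t' k0 u` (`u <+: v` with `|v| ≤ |u|` gives `u = v`), and by FB `q` is in `Out`. -/
def S_TF : Prop := ∀ (M T : Type) [LinearOrder T] [WellFoundedLT T] (Γ : Par M T) (t t' : T),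
  t < t' → ∀ (k0 N : ℕ) (p : Cond M T), ∃ q, le Γ univ q p ∧ ∃ (n : ℕ) (L : Finset (List Bool)),
    N * L.card ≤ 2 ^ n ∧ ∀ u : List Bool, u.length = n → u ∉ L → Out Γ (FNm Γ t t' k0 u) q

/-- **DN.** Density of good codes.

PROOF (from `S_EX`). Let `r` with `le Γ (Iio t') r q` be given. By EX at `t`, extend `r` to `r1` whose stem at `t` has length
`n ≥ i`. As in EX decide, by `w` with `le Γ (Iio t) w r1`, the values at `encode (r1 t).stem` of all promises in `(r1 t).pr`;
let `z0` be a bound. `w` is below `q` on `Iio t`, so `GNull Γ t X q` with `2 ^ n` gives `r2`, `le Γ (Iio t) r2 w`, `l`, `L` with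
`2^n * |L| ≤ 2^l` and `Out Γ (X v) (mix (Iio t) r2 q)` for `|v| = l`, `v ∉ L`. Let `L' = L.filter (length = l)`, `c = Nat.pair (encode L') z0 ≥ z0`
(`Nat.right_le_pair`); `Lc n c = L'`. Let `r' = mix (Iio t) r2 (upd r1 t ⟨(r1 t).stem ++ [c], (r1 t).pr⟩)`, below `r1`
(`ext_iff_fol` at `t`; above `t` it is `r1`). `Gd Γ t X q n r'`, because `mix (Iio t) r' q = mix (Iio t) r2 q`. -/
def S_DN : Prop := ∀ (M T : Type) [LinearOrder T] [WellFoundedLT T] (Γ : Par M T) (t t' : T),
  t < t' → ∀ (X : TN M T) (q : Cond M T), GNull Γ t X q → ∀ r, le Γ (Iio t') r q → ∀ i : ℕ,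
    ∃ r', le Γ (Iio t') r' r ∧ ∃ n, i ≤ n ∧ Gd Γ t X q n r'

/-- **RAW.** Names from dense sets.

PROOF (from `S_PRED`). See `raw_of` in `Pool/Agent/H631/ED/Reduce.lean` (same proof): for each `n` apply PRED to
`{q | (∃ z, q ∈ V n z) ∧ ∀ i ∉ W, q i = CV.top}`, and let `x n m = some (u, z)` for its elements `u`, with a chosen `z`, `u ∈ V n z`. -/
def S_RAW : Prop := ∀ (M T : Type) [LinearOrder T] [WellFoundedLT T] (Γ : Par M T), CCC Γ →
  ∀ W : Set T, Low W → ∀ V : ℕ → ℕ → Set (Cond M T),
  (∀ n z p q, p ∈ V n z → le Γ W q p → q ∈ V n z) →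
  (∀ n p, ∃ q, le Γ W q p ∧ ∃ z, q ∈ V n z) →
  ∃ x : Nm M T, Supp W x ∧ ∀ r n z, Val (le Γ W) r x n z → r ∈ V n z

/-- **COV.** A `GNull` real is covered.

PROOF (from `S_RAW`, `S_DN`, `S_FB`). For `e = encode s` (`s : List ℕ`) let `V e z` be the set of the `r` such that either `Gd Γ t X q n r` for
some `n` with `s.length ≤ n ≤ z`, or `z = 0` and for no `r'` with `le Γ (Iio t') r' r` and no `n ≥ s.length`, `Gd Γ t X q n r'` (for `e` which is no
code take `V e 0 = univ`; every list is decoded from its code, so one can write `s = (decode e).getD []`). `Gd` is inherited by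
`r'` with `le Γ (Iio t') r' r` (`Out.mono`, `mix (Iio t) r' q ≤ mix (Iio t) r q`). RAW with `W = Iio t'`, and `Full`, give `m` with
`Val r (Γ t' m) e z → r ∈ V e z`. Let `q' = upd q t' ⟨(q t').stem, insert m (q t').pr⟩ ≤ q`, `k0 = (q t').stem.length`. Let `r ≤ q'` be in
`Out Γ (FNm … u)`, and suppose `r2 ≤ r`, `r2 ≤ s ∈ X u`. By FB there is `r3 ≤ r2` with `Excl t t' k0 u r3`, with the number `k ≥ k0`.
Let `S = (r3 t').stem`, `i = blk S k ≥ k ≥ k0` (`blk` is strictly increasing), `i < |S|`. Choose `r1` with `le Γ (Iio t') r1 r3` which decides the value `z`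
of `Γ t' m` at `encode (S.take i)` (`Val.dense`); `z ≤ S i` by `ext_iff_fol` (`r3 ≤ q'`). By DN extend `r1` to `r1'` (on `Iio t'`) with
`Gd … n r1'` for some `n ≥ i`. `r1' ∈ V e z` (`Val.mono`), and the second alternative is impossible. So `Gd … n' r1'` for some `n'` with
`i ≤ n' ≤ z ≤ S i`, `n' < blk S (k+1)`. As `n' < |(r3 t).stem|`, the stem of `r1'` at `t` has the same value at `n'` as that
of `r3`, so all `v ∈ Lc n' _` are incomparable with `u`. Let `l` be from `Gd`. `r4 = mix (Iio t') r1' r3 ≤ r3 ≤ s`, and `r4 ≤ mix (Iio t) r1' q`, so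
`Out Γ (X v) r4` for all `v` of length `l` which are not in `Lc n' _`. If `l ≤ |u|` take `v = u.take l` and `TreeN`; if `|u| < l` use
`PrunedN`: `Out Γ (X u) r4`, which contradicts `r4 ≤ s ∈ X u`. -/
def S_COV : Prop := ∀ (M T : Type) [LinearOrder T] [WellFoundedLT T] (Γ : Par M T), CCC Γ →
  Full Γ → ∀ t t' : T, t < t' → ∀ X : TN M T, TreeN Γ X → PrunedN Γ X → ∀ q : Cond M T,
  GNull Γ t X q → ∃ q', le Γ univ q' q ∧ ∃ k0 : ℕ, ∀ (u : List Bool) (r : Cond M T),
    le Γ univ r q' → Out Γ (FNm Γ t t' k0 u) r → Out Γ (X u) r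

/-- **RN.** The tree of the initial segments of a real.

PROOF. `q ∈ InitN u a` iff `Inn Γ (a i) q` for all `i` with `u[i]? = some true`, and `Out Γ (a i) q` for all `i` with
`u[i]? = some false` (`mem_meets`, `mem_fnot_meets`, `mem_fimp`; these are closed under stronger conditions, and if they hold densely
below `q` they hold for `q`). (3) Hence `InitN u a` is closed under stronger conditions and `q ∈ InitN u a` iff it is dense below `q`, iff `Inn Γ (XA Γ a u) q`.
(1) If `v <+: u` then `InitN u a ⊆ InitN v a`. (2) Suppose `r ≤ q`, `r ≤ s ∈ InitN u a`. Extend `r` so that for each `i < l` it is in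
`Inn Γ (a i)` or `Out Γ (a i)`; then it is in `InitN v a` for some `v` of length `l` with `u <+: v`. -/
def S_RN : Prop := ∀ (M T : Type) [LinearOrder T] [WellFoundedLT T] (Γ : Par M T)
    (a : ℕ → Set (PP Γ)), TreeN Γ (XA Γ a) ∧ PrunedN Γ (XA Γ a) ∧
  ∀ (u : List Bool) (q : Cond M T), q ∈ (InitN u a : Set (PP Γ)) ↔ Inn Γ (XA Γ a u) q

/-! ### Cardinalities -/

open Cardinal

/-- countable data: sequences of names -/
abbrev Raw (M T : Type) : Type := ℕ → List Bool → ℕ → Option (Cond M T)

/-- the support of the data -/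
def RS {M T : Type} (W : Set T) (y : Raw M T) : Prop :=
  ∀ n u m c, y n u m = some c → ∀ i ∉ W, c i = CV.top

/-- the pigeonhole principle -/
def PH (M T : Type) [LinearOrder T] : Prop :=
  ∀ y : T → Raw M T, (∀ t, RS (Iio t) (y t)) → ∃ y0, ∀ β, ∃ t, β ≤ t ∧ y t = y0

/-- **K1.** The number of conditions.

PROOF. See `mk_CV`, `mk_Cond` in `Pool/Agent/H631/ED/Card.lean`: a condition `c` supported in `W` is determined by the finite subset
`{(i, c i) | c i ≠ CV.top}` of `W × CV M`; `#(CV M) ≤ κ`, and `#(Finset _) ≤ κ`. -/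
def S_K1 : Prop := ∀ (M T : Type) (κ : Cardinal.{0}) (W : Set T), ℵ₀ ≤ κ → #M ≤ κ → #W ≤ κ →
  #{c : Cond M T // ∀ i ∉ W, c i = CV.top} ≤ κ

/-- **K2.** The number of names, and of data.

PROOF (from `S_K1`). See `mk_Nm` in `Pool/Agent/H631/ED/Card.lean`: inject into the functions from the countable type `ℕ × ℕ` (or
`ℕ × List Bool × ℕ`) to `Option ({c : Cond M T // …} × ℕ)` (or without `ℕ`), `κ ^ ℵ₀ = κ`. -/
def S_K2 : Prop := ∀ (M T : Type) (κ : Cardinal.{0}) (W : Set T), ℵ₀ ≤ κ → κ ^ ℵ₀ = κ →
  #M ≤ κ → #W ≤ κ → #{x : Nm M T // Supp W x} ≤ κ ∧ #{y : Raw M T // RS W y} ≤ κ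

/-- **K3.** Closure points of cofinality `ω₁`.

PROOF. Let `T = (succ κ).ord.ToType`. Any family of at most `κ` elements of `T` has a strict upper bound (`bdd_succ` in
`Pool/Agent/H631/ED/Card.lean`). `ℵ₁ ≤ κ`, since `κ = κ ^ ℵ₀ ≥ 2 ^ ℵ₀`. Let `Ω = (ω₁ : Ordinal).ToType` (well-order of
type `ω₁`: all initial segments countable, countable sets bounded, no maximum; `#Ω = ℵ₁`). By well-founded recursion define
`i : Ω → T` with `i b < i a` and `h x < i a` for all `b < a` and all `x ≤ i b` (a bound for `∑ b < a, #(Iic (i b)) ≤ κ` elements). The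
range of `i` is bounded; let `γ` be the least `x` with `∀ a, i a ≤ x` (`WellFounded.min`), so `i a < γ` (no maximum in `Ω`). If `β < γ` then
`β < i a` for some `a`, so `h β < i a' < γ` for `a' > a`. If `S ⊆ Iio γ` is countable, choose `a s` with `s < i (a s)`, and a bound `a` in
`Ω` of all `a s`; `β = i a`. -/
def S_K3 : Prop := ∀ κ : Cardinal.{0}, ℵ₀ ≤ κ → κ ^ ℵ₀ = κ →
  ∀ h : (Order.succ κ).ord.ToType → (Order.succ κ).ord.ToType,
  ∃ γ, (∀ β < γ, h β < γ) ∧ ∀ S : Set (Order.succ κ).ord.ToType, S.Countable → (∀ s ∈ S, s < γ) →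
    ∃ β < γ, ∀ s ∈ S, s < β

/-- **KP.** The pigeonhole principle.

PROOF (from `S_K2`, `S_K3`). Suppose not: for each `y0` there is `b y0` with `y t ≠ y0` for all `t ≥ b y0`. For `β : T` the set of the
`y0` with `RS (Iio β) y0` has at most `κ` elements (K2, `#(Iio β) ≤ κ`, `Cardinal.mk_Iio_toType_ord_lt`), so let `h β` be a strict
upper bound of all their `b y0` (`bdd_succ`). Let `γ` be given by K3 for `h`. The set of the coordinates which occur in `y γ` (all `i`
with `c i ≠ CV.top` for some `y γ n u m = some c`) is a countable subset of `Iio γ`, so it is contained in `Iio β` for some `β < γ`; so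
`RS (Iio β) (y γ)`, and `b (y γ) < h β < γ`, which contradicts the choice of `b (y γ)`. -/
def S_KP : Prop := ∀ (M : Type) (κ : Cardinal.{0}), ℵ₀ ≤ κ → κ ^ ℵ₀ = κ → #M ≤ κ →
  PH M (Order.succ κ).ord.ToType

/-- **KM.** Existence of the parameters.

PROOF (from `S_K2`, `S_KP`). Let `M = Set (R ⊕ ℕ)`, `κ = #M = 2 ^ #(R ⊕ ℕ)`, so `κ ^ ℵ₀ = κ` (`Cardinal.power_mul`, `mul_eq_left`), `#R ≤ κ`;
`T = (succ κ).ord.ToType`. `R` embeds into `T` (`#R ≤ κ ≤ #T`). Countable sets are bounded by `bdd_succ` (`Pool/Agent/H631/ED/Card.lean`). For `j : T`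
the set of the `x` with `Supp (Iio j) x` is nonempty (`fun _ _ => none`) and has at most `κ = #M` elements (K2), so there is a surjection from `M` onto
it: this is `Γ j`. No maximum: `bdd_succ` for one element. -/
def S_KM : Prop := ∀ R : Type, ∃ (M T : Type) (_ : LinearOrder T) (_ : WellFoundedLT T)
    (_ : NoMaxOrder T) (Γ : Par M T), Nonempty (R ↪ T) ∧ Full Γ ∧
  (∀ S : Set T, S.Countable → ∃ β, ∀ t ∈ S, t < β) ∧ PH M T

/-- **FIN.** All conditions force the sentence.

PROOF (from `S_CNT`, `S_DICH`, `S_TF`, `S_COV`, `S_RN`). For `t` choose `t' t > t`. Let `F t k = FNm Γ t (t' t) k`. `mem_fex`, `mem_fimp` etc. in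
`Pool.Agent.Helper669.Forcing` unfold the connectives. `ThinS (F t k)` is forced by all conditions: TF (for `|u| = n`, `u ∉ L`, `Out` gives
`fnot (meets _)`, `mem_fnot_meets`). Let `a` and `p0` be given such that `p0` forces that `∀ t k, ∃ u, InitN u (a t) ∧ ¬ meets (F t k u)`. By DICH (and RN)
for `X = XA Γ (a t)` and `γ = t` get `Y t : ℕ → TN M T`; by CNT (with `W = Iio t`) replace the sets by countable ones: data `y t : Raw M T`,
`RS (Iio t) (y t)`, with the same `Out` (so also the same `Inn`, `FatN`, `Capt`). PH gives `y0`, with `y t = y0` for unboundedly many `t`. Let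
`Y n u = {c | ∃ m, y0 n u m = some c}`. Then `FatS (Y n)` is forced by all conditions, because `FatN Γ (Y n)`, by `mem_meets`. Let names `C` and `p1 ≤ p0` be
given such that `p1` forces `∀ t, ∃ m, ∀ u, InitN u (a t) → meets (C m u)`. By CNT with `W = univ` there are countable names `C' m u` with the same
`Out` as `C m u`; all their coordinates are `< δ` for some `δ` (`hT`). Take `t ≥ δ` with `y t = y0`. Some `p2 ≤ p1` and `m` satisfy:
`p2` forces `∀ u, InitN u (a t) → meets (C m u)`, that is: if `r ≤ p2` and `Out Γ (C m u) r` then `Out Γ (XA Γ (a t) u) r` (*). By the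
dichotomy for `p2`: (i) `q ≤ p2`, `GNull Γ t X q`: COV gives `q' ≤ q`, `k0`; as `q'` forces `∃ u, InitN u (a t) ∧ ¬ meets (F t k0 u)`, there are `u` and
`r ≤ q'` with `r ∈ InitN u (a t)`, `Out Γ (FNm Γ t (t' t) k0 u) r`, so `Out Γ (XA Γ (a t) u) r`, contradiction (`r ∈ XA Γ (a t) u`). (ii) `q ≤ p2`, `Capt Γ t X (Y n) q`.
Then `q` forces `∀ u, meets (Y n u) → meets (C m u)`: let `r ≤ q` with `Out Γ (C m u) r` (if no `r' ≤ r` is in `meets (C m u)`). Then
`Out Γ (C m u) (mix (Iio t) r q)` (`Out.mono'` for `C'`, supported in `Iio t`), so `Out Γ (X u) (mix (Iio t) r q)` by (*), and by `Capt`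
`Out Γ (Y n u) r`. So `q` forces the conclusion for `m, n`. -/
def S_FIN : Prop := ∀ (M T : Type) [LinearOrder T] [WellFoundedLT T] [NoMaxOrder T]
    (Γ : Par M T), CCC Γ → Full Γ → (∀ S : Set T, S.Countable → ∃ β, ∀ t ∈ S, t < β) → PH M T →
  ∀ p : PP Γ, p ∈ PhiHolds (PP Γ) T

end Pool.Agent.H631.TH
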